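import Pool.Agent.H14.AM.Defs

/-!
Job AM-Artin.

PROOF. The map `y ↦ y^2 + y` is not injective (`0, 1 ↦ 0`, as `1 + 1 = 0`), hence not surjective
(`Finite.injective_iff_surjective`).
-/

namespace Pool.Agent.H14.AM

open Finset Polynomial

theorem exists_not_artin_schreier {F : Type} [Field F] [Fintype F] (h2 : (2 : F) = 0) :
    ∃ t : F, ∀ y : F, y ^ 2 + y ≠ t := by
  classical
  by_contra hcon
  push Not at hcon
  have hsurj : Function.Surjective (fun y : F => y ^ 2 + y) := fun t => by
    obtain ⟨y, hy⟩ := hcon t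
    exact ⟨y, hy⟩
  have hinj := Finite.injective_iff_surjective.mpr hsurj
  have h01 : (0 : F) = 1 := hinj (by simp; linear_combination -h2)
  exact zero_ne_one h01

end Pool.Agent.H14.AM
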