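import Mathlib

/-!
# Absolutely maximally entangled states: the definitions of the problem file
-/

namespace Pool.Agent.H14.AM

open Finset

/-- The basis configuration `(x_A, x_B)`, `B` the complement of `A`. -/
def glue {n d : ℕ} (A : Finset (Fin n)) (x : {i // i ∈ A} → Fin d) (z : {i // i ∉ A} → Fin d) :
    Fin n → Fin d :=
  fun i => if h : i ∈ A then x ⟨i, h⟩ else z ⟨i, h⟩

/-- The entries `ρ_A(x,y) = ∑_z ψ(x,z) conj(ψ(y,z))` of the reduced density matrix of `ψ` on `A`. -/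
noncomputable def rho {n d : ℕ} (ψ : (Fin n → Fin d) → ℂ) (A : Finset (Fin n))
    (x y : {i // i ∈ A} → Fin d) : ℂ :=
  ∑ z : {i // i ∉ A} → Fin d, ψ (glue A x z) * (starRingEnd ℂ) (ψ (glue A y z))

/-- `ψ` is an absolutely maximally entangled pure state of `n` parties of local dimension `d`: it is
a unit vector and every reduced density matrix `ρ_A` with `|A| ≤ ⌊n/2⌋` is `d^{-|A|} I`. -/
def IsAME {n d : ℕ} (ψ : (Fin n → Fin d) → ℂ) : Prop :=
  (∑ x, ‖ψ x‖ ^ 2 = 1) ∧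
  ∀ A : Finset (Fin n), A.card ≤ n / 2 → ∀ x y : {i // i ∈ A} → Fin d,
    rho ψ A x y = if x = y then ((d : ℂ) ^ A.card)⁻¹ else 0

/-- `AME(n,d)`. -/
def AME (n d : ℕ) : Prop := ∃ ψ : (Fin n → Fin d) → ℂ, IsAME ψ

end Pool.Agent.H14.AM
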