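import Pool.Agent.H14.AM.Defs
import Pool.Agent.H14.AM.Stmt

/-!
Job AM-Conv. `AMEx` implies the definition of the problem.

PROOF. Let `ψ : (Fin n → Fin d) → ℂ` satisfy `AMEx`, `d ≥ 1`.
Norm: `AMEx` with `S = ∅`, `u = v = fun _ => 0` gives `∑ z, ψ z * conj (ψ z) = 1`
(`Complex.mul_conj`, `Complex.normSq_eq_norm_sq`).
Reductions: given `A`, `x`, `y`, let `u = glue A x (fun _ => 0)`, `v = glue A y (fun _ => 0)`.
Split `z : Fin n → Fin d` into its restrictions to `A` and to the complement of `A`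
(`Equiv.piEquivPiSubtypeProd (fun i => i ∈ A) (fun _ => Fin d)`): `mix A u z = glue A x (z|)`, so
`∑ z, ψ (mix A u z) * conj (ψ (mix A v z)) = d ^ A.card * rho ψ A x y`
(`Fintype.card_fun`/`Fintype.card_coe`).  And `u = v` on `A` iff `x = y`.
-/

namespace Pool.Agent.H14.AM

open Finset

theorem conv_mix {n d : ℕ} (A : Finset (Fin n)) (x : {i // i ∈ A} → Fin d) (a : Fin d)
    (z : Fin n → Fin d) :
    mix A (glue A x (fun _ => a)) z = glue A x (fun i => z i.1) := by
  funext i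
  unfold mix glue
  by_cases h : i ∈ A
  · simp [h]
  · simp [h]

theorem conv_sum {n d : ℕ} (A : Finset (Fin n)) (f : ({i // i ∉ A} → Fin d) → ℂ) :
    ∑ z : Fin n → Fin d, f (fun i => z i.1) = (d : ℂ) ^ A.card * ∑ w, f w := by
  have h1 : ∑ z : Fin n → Fin d, f (fun i => z i.1) =
      ∑ q : ((i : {x // x ∈ A}) → Fin d) × ((i : {x // ¬ x ∈ A}) → Fin d), f q.2 :=
    Fintype.sum_equiv (Equiv.piEquivPiSubtypeProd (fun i => i ∈ A) (fun _ => Fin d)) _ _
      (fun z => rfl)
  rw [h1, Fintype.sum_prod_type]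
  simp only [sum_const, card_univ, nsmul_eq_mul]
  congr 1
  simp

theorem AME_of_hasAMEx {n d : ℕ} (hd : 1 ≤ d) (h : HasAMEx n (Fin d)) : AME n d := by
  obtain ⟨ψ, hψ⟩ := h
  have hd0 : (d : ℂ) ≠ 0 := by
    have : d ≠ 0 := by omega
    exact_mod_cast this
  refine ⟨ψ, ?_, ?_⟩
  · have h1 := hψ ∅ (by simp) (fun _ => ⟨0, hd⟩) (fun _ => ⟨0, hd⟩)
    have h2 : ∀ z : Fin n → Fin d, mix ∅ (fun _ => (⟨0, hd⟩ : Fin d)) z = z := by
      intro z
      funext i
      simp [mix]
    simp only [h2, implies_true, if_true] at h1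
    have h3 : ∀ z : Fin n → Fin d, ψ z * (starRingEnd ℂ) (ψ z) = ((‖ψ z‖ ^ 2 : ℝ) : ℂ) := by
      intro z
      rw [Complex.mul_conj, Complex.normSq_eq_norm_sq]
    simp only [h3] at h1
    exact_mod_cast h1
  · intro A hA x y
    have h1 := hψ A (by simpa using hA) (glue A x (fun _ => ⟨0, hd⟩)) (glue A y (fun _ => ⟨0, hd⟩))
    simp only [conv_mix] at h1
    have h2 := conv_sum A (fun w => ψ (glue A x w) * (starRingEnd ℂ) (ψ (glue A y w)))
    rw [h2] at h1
    have h3 : (∀ i ∈ A, glue A x (fun _ => (⟨0, hd⟩ : Fin d)) i =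
        glue A y (fun _ => (⟨0, hd⟩ : Fin d)) i) ↔ x = y := by
      constructor
      · intro h
        funext i
        have := h i.1 i.2
        simpa [glue, i.2] using this
      · intro h i _
        rw [h]
    have hne : (d : ℂ) ^ A.card ≠ 0 := pow_ne_zero _ hd0
    unfold rho
    by_cases hxy : x = y
    · rw [if_pos hxy]
      rw [if_pos (h3.2 hxy)] at h1
      exact eq_inv_of_mul_eq_one_right h1
    · rw [if_neg hxy]
      rw [if_neg (fun h => hxy (h3.1 h))] at h1
      exact (mul_eq_zero.1 h1).resolve_left hne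

end Pool.Agent.H14.AM
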