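import Mathlib

/-!
# Absolutely maximally entangled states: working definitions

`mix S u z` is the configuration that agrees with `u` on the parties of `S` and with `z` elsewhere.
`AMEx psi` is a reformulation of `all reductions to at most half of the parties are maximally mixed`
that avoids dependent types (the sum over `z` runs over ALL configurations, so that the factor
`|alpha|^|S|` coming from the irrelevant coordinates of `z` cancels the `|alpha|^(-|S|)`).
The case `S = empty` is the normalisation.
-/

namespace Pool.Agent.H14.AM

open Finset

/-- The configuration equal to `u` on `S` and to `z` off `S`. -/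
def mix {ι α : Type} [DecidableEq ι] (S : Finset ι) (u z : ι → α) : ι → α :=
  fun i => if i ∈ S then u i else z i

/-- Non-dependent form of absolutely maximally entangled. -/
def AMEx {ι α : Type} [Fintype ι] [DecidableEq ι] [Fintype α] [DecidableEq α]
    (ψ : (ι → α) → ℂ) : Prop :=
  ∀ S : Finset ι, S.card ≤ Fintype.card ι / 2 → ∀ u v : ι → α,
    ∑ z : ι → α, ψ (mix S u z) * (starRingEnd ℂ) (ψ (mix S v z))
      = if ∀ i ∈ S, u i = v i then 1 else 0

/-- Existence of an `AMEx` function for `n` parties with alphabet `α`. -/
def HasAMEx (n : ℕ) (α : Type) [Fintype α] [DecidableEq α] : Prop :=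
  ∃ ψ : (Fin n → α) → ℂ, AMEx ψ

/-- The standard alternating form on `F²`. -/
def det2 {F : Type} [Field F] (x y : F × F) : F := x.1 * y.2 - x.2 * y.1

end Pool.Agent.H14.AM
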