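import Pool.Agent.H14.AM.Defs

/-!
Job AM-EEvenNZ.

PROOF. For polynomials `p q` not both zero, `p^2 + p q + C t * q^2` is nonzero with natDegree
`2 * max (natDegree p) (natDegree q)` (the coefficient in that degree is `a^2 + a b + t b^2` with
`(a, b) ≠ 0`, nonzero because `y^2 + y = t` has no solution, characteristic 2).  If
`A + X * B = 0` with `B ≠ 0`: even natDegree = odd natDegree, contradiction; so `B = 0`, `A = 0`, `z = 0`.
-/

namespace Pool.Agent.H14.AM

open Finset Polynomial

private theorem ee_aniso {F : Type} [Field F] (h2 : (2 : F) = 0) (t : F)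
    (ht : ∀ y : F, y ^ 2 + y ≠ t) (a b : F) (h : a ^ 2 + a * b + t * b ^ 2 = 0) :
    a = 0 ∧ b = 0 := by
  by_cases hb : b = 0
  · subst hb
    refine ⟨?_, rfl⟩
    have : a ^ 2 = 0 := by simpa using h
    exact pow_eq_zero_iff (two_ne_zero) |>.1 this
  · exfalso
    apply ht (a / b)
    have h1 : (a / b) ^ 2 + a / b + t = 0 := by
      have : ((a / b) ^ 2 + a / b + t) * b ^ 2 = 0 := by
        field_simp
        linear_combination h
      exact (mul_eq_zero.1 this).resolve_right (pow_ne_zero 2 hb)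
    have h3 : t + t = 0 := by
      have : t + t = 2 * t := by ring
      rw [this, h2, zero_mul]
    linear_combination h1 - h3

private theorem ee_form {F : Type} [Field F] (h2 : (2 : F) = 0) (t : F)
    (ht : ∀ y : F, y ^ 2 + y ≠ t) (p q : F[X]) (h0 : ¬ (p = 0 ∧ q = 0)) :
    p ^ 2 + p * q + C t * q ^ 2 ≠ 0 ∧ Even (p ^ 2 + p * q + C t * q ^ 2).natDegree := by
  obtain ⟨d, hd⟩ : ∃ d, d = max p.natDegree q.natDegree := ⟨_, rfl⟩
  have hp : p.natDegree ≤ d := hd ▸ le_max_left _ _
  have hq : q.natDegree ≤ d := hd ▸ le_max_right _ _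
  have hcoeff : (p ^ 2 + p * q + C t * q ^ 2).coeff (d + d) =
      (p.coeff d) ^ 2 + p.coeff d * q.coeff d + t * (q.coeff d) ^ 2 := by
    rw [coeff_add, coeff_add, coeff_C_mul, pow_two, pow_two, pow_two, pow_two,
      coeff_mul_add_eq_of_natDegree_le hp hp, coeff_mul_add_eq_of_natDegree_le hp hq,
      coeff_mul_add_eq_of_natDegree_le hq hq]
  have hne : ¬ (p.coeff d = 0 ∧ q.coeff d = 0) := by
    rintro ⟨ha, hb⟩
    apply h0
    have key : ∀ r : F[X], r.natDegree = d → r.coeff d = 0 → r = 0 := by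
      intro r hr hr0
      rw [← hr] at hr0
      exact leadingCoeff_eq_zero.1 hr0
    rcases le_total p.natDegree q.natDegree with h | h
    · have hqd : q.natDegree = d := by rw [hd, max_eq_right h]
      have hq0 : q = 0 := key q hqd hb
      have hpd : p.natDegree = d := by
        rw [hq0, natDegree_zero] at hqd
        omega
      exact ⟨key p hpd ha, hq0⟩
    · have hpd : p.natDegree = d := by rw [hd, max_eq_left h]
      have hp0 : p = 0 := key p hpd ha
      have hqd : q.natDegree = d := by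
        rw [hp0, natDegree_zero] at hpd
        omega
      exact ⟨hp0, key q hqd hb⟩
  have hc0 : (p ^ 2 + p * q + C t * q ^ 2).coeff (d + d) ≠ 0 := by
    rw [hcoeff]
    exact fun h => hne (ee_aniso h2 t ht _ _ h)
  refine ⟨fun h => hc0 (by rw [h, coeff_zero]), ?_⟩
  have hle : (p ^ 2 + p * q + C t * q ^ 2).natDegree ≤ d + d := by
    refine (natDegree_add_le _ _).trans (max_le ((natDegree_add_le _ _).trans (max_le ?_ ?_)) ?_)
    · rw [pow_two]
      exact natDegree_mul_le.trans (add_le_add hp hp)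
    · exact natDegree_mul_le.trans (add_le_add hp hq)
    · refine (natDegree_C_mul_le _ _).trans ?_
      rw [pow_two]
      exact natDegree_mul_le.trans (add_le_add hq hq)
  have hge : d + d ≤ (p ^ 2 + p * q + C t * q ^ 2).natDegree := le_natDegree_of_ne_zero hc0
  exact ⟨d, le_antisymm hle hge⟩

theorem eeven_ne_zero {F : Type} [Field F] (h2 : (2 : F) = 0) (t : F)
    (ht : ∀ y : F, y ^ 2 + y ≠ t) (z : Fin 4 → F[X]) (h0 : z ≠ 0) :
    ((z 0) ^ 2 + (z 0) * (z 2) + C t * (z 2) ^ 2)
      + X * ((z 3) ^ 2 + (z 3) * (z 1) + C t * (z 1) ^ 2) ≠ 0 := by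
  intro h
  by_cases hB : z 3 = 0 ∧ z 1 = 0
  · rw [hB.1, hB.2] at h
    have hA : (z 0) ^ 2 + (z 0) * (z 2) + C t * (z 2) ^ 2 = 0 := by
      linear_combination h
    by_cases hA' : z 0 = 0 ∧ z 2 = 0
    · apply h0
      funext i
      fin_cases i
      · exact hA'.1
      · exact hB.2
      · exact hA'.2
      · exact hB.1
    · exact (ee_form h2 t ht _ _ hA').1 hA
  · obtain ⟨hB0, hBe⟩ := ee_form h2 t ht _ _ hB
    have hA : (z 0) ^ 2 + (z 0) * (z 2) + C t * (z 2) ^ 2 =
        -(X * ((z 3) ^ 2 + (z 3) * (z 1) + C t * (z 1) ^ 2)) := by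
      linear_combination h
    have hdeg : ((z 0) ^ 2 + (z 0) * (z 2) + C t * (z 2) ^ 2).natDegree =
        ((z 3) ^ 2 + (z 3) * (z 1) + C t * (z 1) ^ 2).natDegree + 1 := by
      rw [hA, natDegree_neg, natDegree_X_mul hB0]
    by_cases hA' : z 0 = 0 ∧ z 2 = 0
    · rw [hA'.1, hA'.2] at hdeg
      simp at hdeg
    · have hAe := (ee_form h2 t ht _ _ hA').2
      rw [hdeg] at hAe
      obtain ⟨a, ha⟩ := hAe
      obtain ⟨b, hb⟩ := hBe
      omega

end Pool.Agent.H14.AM
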