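import Pool.Agent.H14.AM.Master
import Pool.Agent.H14.AM.Artin
import Pool.Agent.H14.AM.EEvenNZ

/-!
Job AM-EEven. Characteristic 2, `2 s` parties, `1 ≤ s ≤ q - 1`.

PROOF. Let `t : F` with `∀ y, y^2 + y ≠ t` (`exists_not_artin_schreier`), `S` a set of `s` nonzero
elements of `F`.  Apply `master` with `κ = 1`, `E = Empty` (or `Fin 0`),
`a = ![(s+1)/2, s/2, (s+1)/2, s/2]` (sum `2 s`), `ν x = ∏ y ∈ S.erase x, (x - y)⁻¹`.
With `y0 = z 0`, `y3 = z 1`, `y1 = z 2`, `y2 = z 3`: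
`Q z = (y0^2 + y0 y1 + C t * y1^2) + X * (y2^2 + y2 y3 + C t * y3^2)`.
For `x ∈ S` let `ν` with `ν^2 = x` (`FiniteField.isSquare_of_char_two`), `ν ≠ 0`:
`f true x v  = ((t/ν) y1 + y2 + t y3, y0 + y1 + ν y2)`, `w true x = 1`,
`f false x v = (y0 + t y1 + ν t y3, y0 + ν y2 + ν y3)`, `w false x = 1/ν`
(with `y0 = v 0`, `y3 = v 1`, `y1 = v 2`, `y2 = v 3`).
`hS`: polynomial identity in characteristic 2 (multiply by `ν`).
`hN`: the value is `(y0 + ν y2)(y0 + y1 + ν y2) - ((t/ν) y1 + y2 + t y3)(ν y1 + ν^2 y3)`, and equals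
`h1 * g2 - ν h2 * g1` with `(g1, g2) = f true x v`, `(h1, h2) = f false x v`.
relation: `T = Tform 1 z z'` has natDegree `≤ ((s+1)/2 - 1) + (s/2 - 1) = s - 2` (it is zero if
`s = 1`), so `sum_nodal` gives `∑ ν x * T.eval x = T.coeff (s - 1) = 0`.
count: `Q (P4 c) ≠ 0` (`eeven_ne_zero`: `A = y0^2 + y0 y1 + t y1^2` and `B = y2^2 + y2 y3 + t y3^2`
have even natDegree `2 max(..)` or are zero, and are zero only if the arguments are; so
`A + X * B = 0` only if all are zero) and `natDegree ≤ s - 1`; total `≤ s - 1`, `2 (s-1) < 2 s`.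
-/

namespace Pool.Agent.H14.AM

open Finset Polynomial

private theorem ee_deg_mul {F : Type} [Field F] {p q : F[X]} {m k : ℕ}
    (hp : p.degree < m) (hq : q.degree < k) : (p * q).degree < ((m + k - 1 : ℕ) : WithBot ℕ) := by
  by_cases h : p * q = 0
  · rw [h, degree_zero]
    exact WithBot.bot_lt_coe _
  · have hp0 : p ≠ 0 := fun h' => h (by rw [h', zero_mul])
    have hq0 : q ≠ 0 := fun h' => h (by rw [h', mul_zero])
    have h1 := (natDegree_lt_iff_degree_lt hp0).2 hp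
    have h2 := (natDegree_lt_iff_degree_lt hq0).2 hq
    rw [← natDegree_lt_iff_degree_lt h, natDegree_mul hp0 hq0]
    omega

private theorem ee_deg_mono {F : Type} [Field F] {p : F[X]} {m k : ℕ}
    (hp : p.degree < m) (h : m ≤ k) : p.degree < k :=
  lt_of_lt_of_le hp (by exact_mod_cast h)

private theorem ee_deg_add {F : Type} [Field F] {p q : F[X]} {m : ℕ}
    (hp : p.degree < m) (hq : q.degree < m) : (p + q).degree < m :=
  lt_of_le_of_lt (degree_add_le p q) (max_lt hp hq)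

private theorem ee_deg_sub {F : Type} [Field F] {p q : F[X]} {m : ℕ}
    (hp : p.degree < m) (hq : q.degree < m) : (p - q).degree < m :=
  lt_of_le_of_lt (degree_sub_le p q) (max_lt hp hq)

private theorem ee_deg_C_mul {F : Type} [Field F] (t : F) {p : F[X]} {m : ℕ}
    (hp : p.degree < m) : (C t * p).degree < m := by
  by_cases ht : t = 0
  · rw [ht, C_0, zero_mul, degree_zero]
    exact WithBot.bot_lt_coe _
  · rw [degree_C_mul ht]
    exact hp

private theorem ee_P4_ne {F : Type} [Field F] {a : Fin 4 → ℕ} {c : (i : Fin 4) → Fin (a i) → F}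
    (hc : c ≠ 0) : P4 c ≠ 0 := by
  intro h
  apply hc
  funext i
  have := congrFun h i
  exact (poly_eq_zero (c i)).1 this

/-- the quadratic form -/
private noncomputable def eeQ {F : Type} [Field F] (t : F) (z : Fin 4 → F[X]) : F[X] :=
  ((z 0) ^ 2 + (z 0) * (z 2) + C t * (z 2) ^ 2)
      + X * ((z 3) ^ 2 + (z 3) * (z 1) + C t * (z 1) ^ 2)

private noncomputable def eeF {F : Type} [Field F] (t : F) (σ : F → F) (b : Bool) (x : F) :
    (Fin 4 → F) →ₗ[F] F × F :=
  let p : Fin 4 → ((Fin 4 → F) →ₗ[F] F) := fun i => LinearMap.proj i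
  match b with
  | true => ((t / σ x) • p 2 + p 3 + t • p 1).prod (p 0 + p 2 + σ x • p 3)
  | false => (p 0 + t • p 2 + (σ x * t) • p 1).prod (p 0 + σ x • p 3 + σ x • p 1)

private theorem eeF_true {F : Type} [Field F] (t : F) (σ : F → F) (x : F) (v : Fin 4 → F) :
    eeF t σ true x v = (t / σ x * v 2 + v 3 + t * v 1, v 0 + v 2 + σ x * v 3) := rfl

private theorem eeF_false {F : Type} [Field F] (t : F) (σ : F → F) (x : F) (v : Fin 4 → F) :
    eeF t σ false x v = (v 0 + t * v 2 + σ x * t * v 1, v 0 + σ x * v 3 + σ x * v 1) := rfl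

private theorem ee_alt {F : Type} [Field F] (h2 : (2 : F) = 0) (t s : F) (hs : s ≠ 0)
    (v v' : Fin 4 → F) :
    1 * det2 (t / s * v 2 + v 3 + t * v 1, v 0 + v 2 + s * v 3)
        (t / s * v' 2 + v' 3 + t * v' 1, v' 0 + v' 2 + s * v' 3) +
      s⁻¹ * det2 (v 0 + t * v 2 + s * t * v 1, v 0 + s * v 3 + s * v 1)
        (v' 0 + t * v' 2 + s * t * v' 1, v' 0 + s * v' 3 + s * v' 1)
      = (v 0 * v' 1 - v 1 * v' 0) + 1 * (v 2 * v' 3 - v 3 * v' 2) := by
  obtain ⟨u, hu⟩ : ∃ u, u = t / s := ⟨_, rfl⟩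
  have ht : t = u * s := by rw [hu]; field_simp
  rw [← hu]
  clear hu
  subst ht
  unfold det2
  simp only
  have e : (v 0 + u * s * v 2 + s * (u * s) * v 1) * (v' 0 + s * v' 3 + s * v' 1) -
      (v 0 + s * v 3 + s * v 1) * (v' 0 + u * s * v' 2 + s * (u * s) * v' 1) =
      s * ((v 0 * v' 3 - v 3 * v' 0) + (v 0 * v' 1 - v 1 * v' 0) + u * (v 2 * v' 0 - v 0 * v' 2) +
        u * s * (v 2 * v' 3 - v 3 * v' 2) + u * s * (v 2 * v' 1 - v 1 * v' 2) +
        u * s * (v 1 * v' 0 - v 0 * v' 1) + u * s * s * (v 1 * v' 3 - v 3 * v' 1)) := by ring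
  rw [e, inv_mul_cancel_left₀ hs]
  linear_combination (u * (v 2 * v' 0 - v 0 * v' 2) + (u * s - 1) * (v 2 * v' 3 - v 3 * v' 2) -
    u * s * (v 0 * v' 1 - v 1 * v' 0) + u * s * s * (v 1 * v' 3 - v 3 * v' 1)) * h2

private theorem ee_eval {F : Type} [Field F] (t x : F) (z : Fin 4 → F[X]) :
    (eeQ t z).eval x = ((z 0).eval x ^ 2 + (z 0).eval x * (z 2).eval x + t * (z 2).eval x ^ 2)
      + x * ((z 3).eval x ^ 2 + (z 3).eval x * (z 1).eval x + t * (z 1).eval x ^ 2) := by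
  unfold eeQ
  simp only [eval_add, eval_mul, eval_pow, eval_C, eval_X]

private theorem ee_null {F : Type} [Field F] (h2 : (2 : F) = 0) (t : F) (σ : F → F) (x : F)
    (hσ : σ x ^ 2 = x) (hσ0 : σ x ≠ 0) (b : Bool) (v : Fin 4 → F) (h : eeF t σ b x v = 0) :
    (v 0 ^ 2 + v 0 * v 2 + t * v 2 ^ 2) + x * (v 3 ^ 2 + v 3 * v 1 + t * v 1 ^ 2) = 0 := by
  obtain ⟨u, hu⟩ : ∃ u, u = t / σ x := ⟨_, rfl⟩
  have ht : t = u * σ x := by rw [hu]; field_simp
  cases b with
  | true =>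
    rw [eeF_true, ← hu] at h
    have g1 : u * v 2 + v 3 + t * v 1 = 0 := congrArg Prod.fst h
    have g2 : v 0 + v 2 + σ x * v 3 = 0 := congrArg Prod.snd h
    rw [← hσ]
    generalize σ x = s at *
    subst ht
    linear_combination (v 0 + s * v 3) * g2 - (s * v 2 + s ^ 2 * v 1) * g1 +
      (u * s * v 2 ^ 2 + s ^ 2 * v 3 * v 1 + s ^ 2 * (u * s) * v 1 ^ 2 - s * v 0 * v 3 +
        (u * s) * s * v 2 * v 1) * h2
  | false =>
    rw [eeF_false] at h
    have g1 : v 0 + t * v 2 + σ x * t * v 1 = 0 := congrArg Prod.fst h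
    have g2 : v 0 + σ x * v 3 + σ x * v 1 = 0 := congrArg Prod.snd h
    rw [← hσ]
    generalize σ x = s at *
    subst ht
    linear_combination (v 0 + v 2 + s * v 3) * g1 - s * (u * v 2 + v 3 + u * s * v 1) * g2 +
      s ^ 2 * (v 3 ^ 2 + v 3 * v 1 + u * s * v 1 ^ 2) * h2

theorem hasAMEx_even_char_even {F : Type} [Field F] [Fintype F] [DecidableEq F]
    (h2 : (2 : F) = 0) (s : ℕ) (hs1 : 1 ≤ s) (hs : s + 1 ≤ Fintype.card F) :
    HasAMEx (2 * s) F := by
  classical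
  obtain ⟨t, ht⟩ := exists_not_artin_schreier (F := F) h2
  have : CharP F 2 := CharTwo.of_one_ne_zero_of_two_eq_zero one_ne_zero h2
  have hsq : ∀ x : F, ∃ r : F, r ^ 2 = x := by
    intro x
    obtain ⟨r, hr⟩ := FiniteField.isSquare_of_char_two (ringChar.eq F 2) x
    exact ⟨r, by rw [hr]; ring⟩
  choose σ hσ using hsq
  obtain ⟨S, hSsub, hScard⟩ : ∃ S : Finset F, S ⊆ univ.erase 0 ∧ S.card = s := by
    apply Finset.exists_subset_card_eq
    rw [Finset.card_erase_of_mem (Finset.mem_univ _), Finset.card_univ]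
    omega
  have hS0 : ∀ x ∈ S, x ≠ 0 := fun x hx => (Finset.mem_erase.1 (hSsub hx)).1
  have hσ0 : ∀ x ∈ S, σ x ≠ 0 := by
    intro x hx h
    have := hσ x
    rw [h] at this
    exact hS0 x hx (by rw [← this]; ring)
  have hSne : S.Nonempty := Finset.card_pos.1 (by omega)
  let a : Fin 4 → ℕ := ![(s + 1) / 2, s / 2, (s + 1) / 2, s / 2]
  have ha0 : a 0 = (s + 1) / 2 := rfl
  have ha1 : a 1 = s / 2 := rfl
  have ha2 : a 2 = (s + 1) / 2 := rfl
  have ha3 : a 3 = s / 2 := rfl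
  have key := master S a 1 (eeQ t) (fun c z => by unfold eeQ; ring) (eeF t σ)
    (fun b x => match b with | true => 1 | false => (σ x)⁻¹)
    (fun b x hx => match b with | true => one_ne_zero | false => inv_ne_zero (hσ0 x hx))
    (fun x _ => by rw [eval_one]; exact one_ne_zero)
    (fun x hx v v' => by
      rw [eeF_true, eeF_true, eeF_false, eeF_false, eval_one]
      exact ee_alt h2 t (σ x) (hσ0 x hx) v v')
    (fun b x hx z hz => by
      rw [ee_eval]
      exact ee_null h2 t σ x (hσ x) (hσ0 x hx) b _ hz)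
    (E := Fin 0) (fun k => k.elim0) (fun k => k.elim0) (fun k => k.elim0)
    (fun x => ∏ y ∈ S.erase x, (x - y)⁻¹) (fun x _ => nodal_ne_zero S x) ?_ ?_ ?_
  · rw [hScard, Fintype.card_fin, add_zero] at key
    exact key
  · intro c c'
    rw [Finset.univ_eq_empty, Finset.sum_empty, add_zero]
    have hd : ∀ i, (P4 c i).degree < a i := fun i => degree_poly_lt (c i)
    have hd' : ∀ i, (P4 c' i).degree < a i := fun i => degree_poly_lt (c' i)
    have hT : (Tform 1 (P4 c) (P4 c')).degree < ((s - 1 : ℕ) : WithBot ℕ) := by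
      unfold Tform
      rw [one_mul]
      refine ee_deg_add (ee_deg_sub ?_ ?_) (ee_deg_sub ?_ ?_)
      · exact ee_deg_mono (ee_deg_mul (hd 0) (hd' 1)) (by rw [ha0, ha1]; omega)
      · exact ee_deg_mono (ee_deg_mul (hd 1) (hd' 0)) (by rw [ha0, ha1]; omega)
      · exact ee_deg_mono (ee_deg_mul (hd 2) (hd' 3)) (by rw [ha2, ha3]; omega)
      · exact ee_deg_mono (ee_deg_mul (hd 3) (hd' 2)) (by rw [ha2, ha3]; omega)
    rw [sum_nodal S hSne _ (ee_deg_mono hT (by omega)), hScard]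
    exact coeff_eq_zero_of_degree_lt hT
  · intro c hc e he
    have hne : eeQ t (P4 c) ≠ 0 := eeven_ne_zero h2 t ht (P4 c) (ee_P4_ne hc)
    have h1 := sum_le_natDegree S _ hne e he
    have hd : ∀ i, (P4 c i).degree < a i := fun i => degree_poly_lt (c i)
    have h3 : (eeQ t (P4 c)).degree < (s : WithBot ℕ) := by
      unfold eeQ
      refine ee_deg_add (ee_deg_add (ee_deg_add ?_ ?_) (ee_deg_C_mul t ?_)) ?_
      · rw [sq]
        exact ee_deg_mono (ee_deg_mul (hd 0) (hd 0)) (by rw [ha0]; omega)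
      · exact ee_deg_mono (ee_deg_mul (hd 0) (hd 2)) (by rw [ha0, ha2]; omega)
      · rw [sq]
        exact ee_deg_mono (ee_deg_mul (hd 2) (hd 2)) (by rw [ha2]; omega)
      · have hX : (X : F[X]).degree < ((2 : ℕ) : WithBot ℕ) := by
          rw [degree_X]
          exact_mod_cast one_lt_two
        have hB : (P4 c 3 ^ 2 + P4 c 3 * P4 c 1 + C t * P4 c 1 ^ 2).degree <
            ((2 * (s / 2) - 1 : ℕ) : WithBot ℕ) := by
          refine ee_deg_add (ee_deg_add ?_ ?_) (ee_deg_C_mul t ?_)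
          · rw [sq]
            exact ee_deg_mono (ee_deg_mul (hd 3) (hd 3)) (by rw [ha3]; omega)
          · exact ee_deg_mono (ee_deg_mul (hd 3) (hd 1)) (by rw [ha3, ha1]; omega)
          · rw [sq]
            exact ee_deg_mono (ee_deg_mul (hd 1) (hd 1)) (by rw [ha1]; omega)
        exact ee_deg_mono (ee_deg_mul hX hB) (by omega)
    have h4 := (natDegree_lt_iff_degree_lt hne).2 h3
    rw [Fintype.card_fin, Finset.univ_eq_empty, Finset.filter_empty, Finset.card_empty, hScard]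
    omega
  · rw [Fin.sum_univ_four, ha0, ha1, ha2, ha3, hScard, Fintype.card_fin]
    omega

end Pool.Agent.H14.AM
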