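import Pool.Agent.H14.AM.OddCommon

/-!
Job AM-EOddTop.

PROOF. Under `Bd m z` all products have degree at most `m` (with `(k+1, k, k, k)` resp.
`(k+1, k, k+1, k+1)` coefficients for `m = 2k` resp. `m = 2k+1`), and the `m`-th coefficient of `q` is
`A^2 + A B + t B^2` with `(A, B) = top m z`  (`m = 2k`: from `z0^2`, `X z0 z1`, `X (C t X) z1^2`;
`m = 2k+1`: from `X z2^2`, `X z2 z3`, `C t X z3^2`; all the other products have degree `< m`; for
`m = 0` it is `(z0[0])^2` and `z1 = z2 = z3 = 0`).  If it vanishes and `B ≠ 0` then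
`(A/B)^2 + A/B = t` in characteristic 2, a contradiction; so `B = 0`, `A = 0`.
-/

namespace Pool.Agent.H14.AM

open Finset Polynomial

/-- degree at most `n`, with `n`-th coefficient `a` -/
private def TC {F : Type} [Field F] (p : F[X]) (n : ℕ) (a : F) : Prop :=
  p.natDegree ≤ n ∧ p.coeff n = a

private theorem TC.mul {F : Type} [Field F] {p q : F[X]} {n m : ℕ} {a b : F} (hp : TC p n a)
    (hq : TC q m b) : TC (p * q) (n + m) (a * b) :=
  ⟨natDegree_mul_le.trans (add_le_add hp.1 hq.1), by
    rw [coeff_mul_add_eq_of_natDegree_le hp.1 hq.1, hp.2, hq.2]⟩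

private theorem TC.add {F : Type} [Field F] {p q : F[X]} {n : ℕ} {a b : F} (hp : TC p n a)
    (hq : TC q n b) : TC (p + q) n (a + b) :=
  ⟨(natDegree_add_le p q).trans (max_le hp.1 hq.1), by rw [coeff_add, hp.2, hq.2]⟩

private theorem TC.weak {F : Type} [Field F] {p : F[X]} {n m : ℕ} {a : F} (hp : TC p n a)
    (h : n < m) : TC p m 0 :=
  ⟨hp.1.trans h.le, coeff_eq_zero_of_natDegree_lt (hp.1.trans_lt h)⟩

private theorem TC.cast {F : Type} [Field F] {p : F[X]} {n m : ℕ} {a b : F} (hp : TC p n a)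
    (h : n = m) (hab : a = b) : TC p m b := by
  subst h
  subst hab
  exact hp

private theorem TC.lin {F : Type} [Field F] (t s : F) : TC (C t * X + C s) 1 t :=
  ⟨natDegree_linear_le, by simp [coeff_C]⟩

private theorem TC.x {F : Type} [Field F] : TC (X : F[X]) 1 1 :=
  ⟨natDegree_X_le, coeff_X_one⟩

private theorem TC.sq {F : Type} [Field F] {p : F[X]} {n : ℕ} {a : F} (hp : TC p n a) :
    TC (p ^ 2) (n + n) (a * a) := by
  rw [pow_two]
  exact hp.mul hp

private theorem TC.of_lt {F : Type} [Field F] {p : F[X]} {n : ℕ}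
    (h : p.degree < ((n + 1 : ℕ) : WithBot ℕ)) : TC p n (p.coeff n) :=
  ⟨by
    by_cases h0 : p = 0
    · rw [h0]
      simp
    · exact Nat.lt_succ_iff.1 ((natDegree_lt_iff_degree_lt h0).2 h), rfl⟩

private theorem eodd_form {F : Type} [Field F] (h2 : (2 : F) = 0) (t : F)
    (ht : ∀ y : F, y ^ 2 + y ≠ t) (A B : F) (h : A * A + A * B + t * (B * B) = 0) :
    A = 0 ∧ B = 0 := by
  have hB : B = 0 := by
    by_contra hB
    apply ht (A / B)
    have e : (A / B) ^ 2 + A / B = (A * A + A * B + t * (B * B)) / (B * B) - t := by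
      field_simp
      ring
    rw [e, h, zero_div, zero_sub]
    have : t + t = 0 := by
      have : t + t = 2 * t := by ring
      rw [this, h2, zero_mul]
    exact neg_eq_of_add_eq_zero_left this
  subst hB
  refine ⟨?_, rfl⟩
  have : A * A = 0 := by
    have : A * A + A * 0 + t * (0 * 0) = A * A := by ring
    rw [← this]
    exact h
  exact mul_self_eq_zero.1 this

theorem eodd_top {F : Type} [Field F] (h2 : (2 : F) = 0) (t : F) (ht : ∀ y : F, y ^ 2 + y ≠ t)
    (m : ℕ) (z : Fin 4 → F[X]) (hz : Bd m z) (q : F[X])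
    (hq : q = (z 0) ^ 2 + X * (z 0) * (z 1) + X * (C t * X + C (t ^ 3)) * (z 1) ^ 2
        + X * (z 2) ^ 2 + X * (z 2) * (z 3) + (C t * X + C (t ^ 3)) * (z 3) ^ 2
        + (z 0) * (z 2) + (C t * X + C (t ^ 3)) * (z 1) * (z 3)) :
    q.natDegree ≤ m ∧ (q.coeff m = 0 → top m z = 0) := by
  suffices h : TC q m ((top m z).1 * (top m z).1 + (top m z).1 * (top m z).2
      + t * ((top m z).2 * (top m z).2)) by
    refine ⟨h.1, fun h0 => ?_⟩
    rw [h.2] at h0
    obtain ⟨h3, h4⟩ := eodd_form h2 t ht _ _ h0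
    exact Prod.ext h3 h4
  obtain ⟨hz0, hz1, hz2, hz3⟩ := hz
  rw [hq]
  rcases Nat.even_or_odd' m with ⟨k, rfl | rfl⟩
  · have e1 : 2 * k / 2 = k := by omega
    have e2 : (2 * k + 1) / 2 = k := by omega
    have et : top (2 * k) z = ((z 0).coeff k, (z 1).coeff (k - 1)) := by
      unfold top
      rw [if_pos (even_two_mul k), e1]
    rw [et]
    simp only
    rw [e1] at hz0 hz1
    rw [e2] at hz2 hz3
    have T0 := TC.of_lt hz0
    rcases k with _ | k
    · have h1 : z 1 = 0 := by
        rw [← degree_eq_bot]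
        simpa using hz1
      have h2' : z 2 = 0 := by
        rw [← degree_eq_bot]
        simpa using hz2
      have h3 : z 3 = 0 := by
        rw [← degree_eq_bot]
        simpa using hz3
      rw [h1, h2', h3]
      have := T0.sq
      simpa [TC] using this
    · have T1 := TC.of_lt hz1
      have T2 := TC.of_lt hz2
      have T3 := TC.of_lt hz3
      have L := TC.lin t (t ^ 3)
      have Xx := TC.x (F := F)
      have e3 : k + 1 - 1 = k := by omega
      rw [e3]
      have a1 := (T0.sq).cast (m := 2 * (k + 1)) (by ring) rfl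
      have a2 := ((Xx.mul T0).mul T1).cast (m := 2 * (k + 1)) (by ring) rfl
      have a3 := ((Xx.mul L).mul T1.sq).cast (m := 2 * (k + 1)) (by ring) rfl
      have a4 := (Xx.mul T2.sq).weak (m := 2 * (k + 1)) (by omega)
      have a5 := ((Xx.mul T2).mul T3).weak (m := 2 * (k + 1)) (by omega)
      have a6 := (L.mul T3.sq).weak (m := 2 * (k + 1)) (by omega)
      have a7 := (T0.mul T2).weak (m := 2 * (k + 1)) (by omega)
      have a8 := ((L.mul T1).mul T3).weak (m := 2 * (k + 1)) (by omega)
      exact (((((((a1.add a2).add a3).add a4).add a5).add a6).add a7).add a8).cast rfl (by ring)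
  · have e1 : (2 * k + 1) / 2 = k := by omega
    have e2 : (2 * k + 1 + 1) / 2 = k + 1 := by omega
    have et : top (2 * k + 1) z = ((z 2).coeff k, (z 3).coeff k) := by
      unfold top
      rw [if_neg (by simp), e1]
    rw [et]
    simp only
    rw [e1] at hz0 hz1
    rw [e2] at hz2 hz3
    have T0 := TC.of_lt hz0
    have T2 := TC.of_lt hz2
    have T3 := TC.of_lt hz3
    have L := TC.lin t (t ^ 3)
    have Xx := TC.x (F := F)
    have a1 := (T0.sq).weak (m := 2 * k + 1) (by omega)
    have a4 := (Xx.mul T2.sq).cast (m := 2 * k + 1) (by ring) rfl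
    have a5 := ((Xx.mul T2).mul T3).cast (m := 2 * k + 1) (by ring) rfl
    have a6 := (L.mul T3.sq).cast (m := 2 * k + 1) (by ring) rfl
    have a7 := (T0.mul T2).weak (m := 2 * k + 1) (by omega)
    rcases k with _ | k
    · have h1 : z 1 = 0 := by
        rw [← degree_eq_bot]
        simpa using hz1
      rw [h1]
      have b := ((((a1.add a4).add a5).add a6).add a7).cast (m := 2 * 0 + 1) rfl
        (b := (z 2).coeff 0 * (z 2).coeff 0 + (z 2).coeff 0 * (z 3).coeff 0
          + t * ((z 3).coeff 0 * (z 3).coeff 0)) (by ring)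
      have e : (z 0) ^ 2 + X * (z 0) * 0 + X * (C t * X + C (t ^ 3)) * 0 ^ 2
        + X * (z 2) ^ 2 + X * (z 2) * (z 3) + (C t * X + C (t ^ 3)) * (z 3) ^ 2
        + (z 0) * (z 2) + (C t * X + C (t ^ 3)) * 0 * (z 3)
        = (z 0) ^ 2 + X * (z 2) ^ 2 + X * (z 2) * (z 3) + (C t * X + C (t ^ 3)) * (z 3) ^ 2
          + (z 0) * (z 2) := by ring
      rw [e]
      exact b
    · have T1 := TC.of_lt hz1
      have a2 := ((Xx.mul T0).mul T1).weak (m := 2 * (k + 1) + 1) (by omega)
      have a3 := ((Xx.mul L).mul T1.sq).weak (m := 2 * (k + 1) + 1) (by omega)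
      have a8 := ((L.mul T1).mul T3).weak (m := 2 * (k + 1) + 1) (by omega)
      exact (((((((a1.add a2).add a3).add a4).add a5).add a6).add a7).add a8).cast rfl (by ring)

end Pool.Agent.H14.AM
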