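import Pool.Agent.H14.AM.OddCommon
import Pool.Agent.H14.AM.Artin
import Pool.Agent.H14.AM.EOddTop

/-!
Job AM-EOdd. Characteristic 2, `2 m + 1` parties, `1 ≤ m ≤ q`.

PROOF. Parameter: `t : F` with `∀ y, y^2 + y ≠ t` (`exists_not_artin_schreier`: the map
`y ↦ y^2 + y` is not injective as `0, 1 ↦ 0`, hence not surjective); `t ≠ 0`.
`L = C t * X + C (t^3)`,
`Q z = (z 0)^2 + X * (z 0) * (z 1) + X * L * (z 1)^2 + X * (z 2)^2 + X * (z 2) * (z 3)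
        + L * (z 3)^2 + (z 0) * (z 2) + L * (z 1) * (z 3)`.
`H` (`eodd_top`): under `Bd m z` the `m`-th coefficient of `Q z` is `A^2 + A B + t B^2` with
`(A, B) = top m z` (for `m = 0` it is `(z0 0)^2`), and this form is anisotropic
(`A = y B`, `y^2 + y = t` in characteristic 2).
FIBRES: `p(x) = x^2 + t x + t^3 ≠ 0` for all `x ∈ F` (else `(x/t)^2 + (x/t) = t`); let `ν` with
`ν^2 = p(x)` (Frobenius is surjective: `FiniteField.isSquare_of_char_two`), `ν ≠ 0`.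
With `Y1 = v2 + x v1`, `Y3 = v1`, `Y2 = v3`, `Y0 = v0 + x v3`:
`f true x v  = ((x/ν) Y1 + Y2 + x Y3, Y0 + Y1 + ν Y2)`, `w true x = 1`,
`f false x v = (Y0 + x Y1 + ν x Y3, Y0 + ν Y2 + ν Y3)`, `w false x = 1/ν`.
`hS` is a polynomial identity in characteristic 2 (multiply by `ν`); it does not use `ν^2 = p(x)`.
`hN`: the value of `Q z` at `x` is `(Y0 + ν Y2)(Y0 + Y1 + ν Y2) - ((x/ν) Y1 + Y2 + x Y3)(ν Y1 + ν^2 Y3)`
(uses `ν^2 = x^2 + t x + t^3`), so it is `0` if `f true x v = 0`; and, with `(g1, g2) = f true x v`,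
`(h1, h2) = f false x v`, it also equals `h1 * g2 - ν h2 * g1`, so it is `0` if `f false x v = 0`.
Then `masterOdd` with any `S` of cardinality `m`.
-/

namespace Pool.Agent.H14.AM

open Finset Polynomial

private theorem eodd_S {F : Type} [Field F] (h2 : (2 : F) = 0) (x n i v0 v1 v2 v3 w0 w1 w2 w3 : F)
    (hni : n * i = 1) :
    ((x * i * (v2 + x * v1) + v3 + x * v1) * ((w0 + x * w3) + (w2 + x * w1) + n * w3)
      - ((v0 + x * v3) + (v2 + x * v1) + n * v3) * (x * i * (w2 + x * w1) + w3 + x * w1))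
    + i * (((v0 + x * v3) + x * (v2 + x * v1) + n * x * v1) * ((w0 + x * w3) + n * w3 + n * w1)
      - ((v0 + x * v3) + n * v3 + n * v1) * ((w0 + x * w3) + x * (w2 + x * w1) + n * x * w1))
    = (v0 * w1 - v1 * w0) + (v2 * w3 - v3 * w2) := by
  linear_combination ((-1)*v3*w0 + (-1)*v1*w0 + v0*w3 + v0*w1 + (-2)*x*v3*w2 + x*v3*w1 + 2*x*v2*w3 + x*v2*w1 + (-1)*x*v1*w3 + (-1)*x*v1*w2 + x*v1*w0 + (-1)*x*v0*w1 + (-1)*x*n*v3*w1 + x*n*v1*w3 + (-3)*x^2*v3*w1 + 3*x^2*v1*w3) * hni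
    + (v3*w2 + (-1)*v2*w3 + (-1)*x*v3*w2 + x*v3*w1 + x*v2*w3 + (-1)*x*v1*w3 + x*v1*w0 + (-1)*x*v0*w1 + x*i*v2*w0 + (-1)*x*i*v0*w2 + (-1)*x*n*v3*w1 + x*n*v1*w3 + (-2)*x^2*v3*w1 + 2*x^2*v1*w3 + (-1)*x^2*i*v3*w2 + x^2*i*v2*w3 + x^2*i*v1*w0 + (-1)*x^2*i*v0*w1 + (-1)*x^3*i*v3*w1 + x^3*i*v1*w3) * h2

private theorem eodd_N1 {F : Type} [Field F] (h2 : (2 : F) = 0) (x t n i v0 v1 v2 v3 : F)
    (hni : n * i = 1) (hn : n ^ 2 = x ^ 2 + t * x + t ^ 3)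
    (e1 : x * i * (v2 + x * v1) + v3 + x * v1 = 0)
    (e2 : (v0 + x * v3) + (v2 + x * v1) + n * v3 = 0) :
    v0 ^ 2 + x * v0 * v1 + x * (t * x + t ^ 3) * v1 ^ 2 + x * v2 ^ 2 + x * v2 * v3
      + (t * x + t ^ 3) * v3 ^ 2 + v0 * v2 + (t * x + t ^ 3) * v1 * v3 = 0 := by
  linear_combination ((v0 + x * v3) + n * v3) * e2
    - (n * (v2 + x * v1) + n ^ 2 * v1) * e1
    + (x*v2^2 + x*n*v1*v2 + 2*x^2*v1*v2 + x^2*n*v1^2 + x^3*v1^2) * hni + ((-1)*v3^2 + v1*v3 + x*v1^2) * hn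
    + ((-1)*n*v0*v3 + t^3*v1*v3 + x*v2^2 + (-1)*x*v0*v3 + (-1)*x*n*v3^2 + x*n*v1*v2 + x*t*v1*v3 + x*t^3*v1^2 + (-1)*x^2*v3^2 + x^2*v1*v2 + x^2*n*v1^2 + x^2*t*v1^2 + x^3*v1^2) * h2

private theorem eodd_N2 {F : Type} [Field F] (h2 : (2 : F) = 0) (x t n i v0 v1 v2 v3 : F)
    (hni : n * i = 1) (hn : n ^ 2 = x ^ 2 + t * x + t ^ 3)
    (e1 : (v0 + x * v3) + x * (v2 + x * v1) + n * x * v1 = 0)
    (e2 : (v0 + x * v3) + n * v3 + n * v1 = 0) :
    v0 ^ 2 + x * v0 * v1 + x * (t * x + t ^ 3) * v1 ^ 2 + x * v2 ^ 2 + x * v2 * v3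
      + (t * x + t ^ 3) * v3 ^ 2 + v0 * v2 + (t * x + t ^ 3) * v1 * v3 = 0 := by
  linear_combination ((v0 + x * v3) + (v2 + x * v1) + n * v3) * e1
    - n * (x * i * (v2 + x * v1) + v3 + x * v1) * e2
    + (x*v0*v2 + x*n*v2*v3 + x*n*v1*v2 + x^2*v2*v3 + x^2*v0*v1 + x^2*n*v1*v3 + x^2*n*v1^2 + x^3*v1*v3) * hni + (v3^2 + v1*v3 + x*v1^2) * hn
    + (t^3*v3^2 + t^3*v1*v3 + (-1)*x*v0*v3 + x*t*v3^2 + x*t*v1*v3 + x*t^3*v1^2 + (-1)*x^2*v1*v2 + x^2*t*v1^2) * h2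

/-- the local maps -/
private def eoF {F : Type} [Field F] (x n i : F) : Bool → (Fin 4 → F) →ₗ[F] F × F
  | true =>
    { toFun := fun v => (x * i * (v 2 + x * v 1) + v 3 + x * v 1,
        (v 0 + x * v 3) + (v 2 + x * v 1) + n * v 3)
      map_add' := fun v w => by
        ext <;> simp <;> ring
      map_smul' := fun c v => by
        ext <;> simp <;> ring }
  | false =>
    { toFun := fun v => ((v 0 + x * v 3) + x * (v 2 + x * v 1) + n * x * v 1,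
        (v 0 + x * v 3) + n * v 3 + n * v 1)
      map_add' := fun v w => by
        ext <;> simp <;> ring
      map_smul' := fun c v => by
        ext <;> simp <;> ring }

theorem hasAMEx_even_char_odd {F : Type} [Field F] [Fintype F] [DecidableEq F]
    (h2 : (2 : F) = 0) (m : ℕ) (hm : 1 ≤ m) (hmq : m ≤ Fintype.card F) :
    HasAMEx (2 * m + 1) F := by
  obtain ⟨t, ht⟩ := exists_not_artin_schreier (F := F) h2
  have ht0 : t ≠ 0 := fun h => ht 0 (by rw [h]; ring)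
  have : CharP F 2 := CharTwo.of_one_ne_zero_of_two_eq_zero one_ne_zero h2
  have hν : ∀ x : F, ∃ n : F, n ^ 2 = x ^ 2 + t * x + t ^ 3 ∧ n ≠ 0 := by
    intro x
    obtain ⟨n, hn⟩ := FiniteField.isSquare_of_char_two (F := F) (ringChar.eq F 2)
      (x ^ 2 + t * x + t ^ 3)
    refine ⟨n, by rw [hn]; ring, fun h0 => ?_⟩
    rw [h0, mul_zero] at hn
    apply ht (x / t)
    have e : (x / t) ^ 2 + x / t = (x ^ 2 + t * x + t ^ 3) / t ^ 2 - t := by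
      field_simp
      ring
    rw [e, hn, zero_div, zero_sub]
    have : t + t = 0 := by
      have : t + t = 2 * t := by ring
      rw [this, h2, zero_mul]
    exact neg_eq_of_add_eq_zero_left this
  choose ν hν1 hν2 using hν
  have hni : ∀ x : F, ν x * (ν x)⁻¹ = 1 := fun x => mul_inv_cancel₀ (hν2 x)
  obtain ⟨S, -, hS⟩ := Finset.exists_subset_card_eq (s := (Finset.univ : Finset F)) (n := m)
    (by rw [Finset.card_univ]; exact hmq)
  subst hS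
  refine masterOdd S hm
    (fun z => (z 0) ^ 2 + X * (z 0) * (z 1) + X * (C t * X + C (t ^ 3)) * (z 1) ^ 2
        + X * (z 2) ^ 2 + X * (z 2) * (z 3) + (C t * X + C (t ^ 3)) * (z 3) ^ 2
        + (z 0) * (z 2) + (C t * X + C (t ^ 3)) * (z 1) * (z 3))
    (fun c z => by ring)
    (fun b x => eoF x (ν x) (ν x)⁻¹ b)
    (fun b x => if b then 1 else (ν x)⁻¹) ?_ ?_ ?_ ?_
  · intro b x _
    cases b
    · simpa using hν2 x
    · simp
  · intro x _ v v'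
    have h := eodd_S h2 x (ν x) (ν x)⁻¹ (v 0) (v 1) (v 2) (v 3) (v' 0) (v' 1) (v' 2) (v' 3) (hni x)
    simp only [eoF, det2, LinearMap.coe_mk, AddHom.coe_mk, if_true, one_mul]
    simpa using h
  · intro b x _ z h
    simp only [eval_add, eval_mul, eval_pow, eval_X, eval_C]
    cases b
    · have h1 := congrArg Prod.fst h
      have h3 := congrArg Prod.snd h
      simp only [eoF, LinearMap.coe_mk, AddHom.coe_mk] at h1 h3
      exact eodd_N2 h2 x t (ν x) (ν x)⁻¹ _ _ _ _ (hni x) (hν1 x) h1 h3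
    · have h1 := congrArg Prod.fst h
      have h3 := congrArg Prod.snd h
      simp only [eoF, LinearMap.coe_mk, AddHom.coe_mk] at h1 h3
      exact eodd_N1 h2 x t (ν x) (ν x)⁻¹ _ _ _ _ (hni x) (hν1 x) h1 h3
  · intro m z hz
    exact eodd_top h2 t ht m z hz _ rfl

end Pool.Agent.H14.AM
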