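import Pool.Agent.H14.AM.Defs

/-!
Job AM-OEvenNZ.

PROOF. For polynomials `p q` not both zero, `p^2 - C δ * q^2` is nonzero with natDegree
`2 * max (natDegree p) (natDegree q)` (the coefficient in that degree is `a^2 - δ b^2` with
`(a, b) ≠ 0`, nonzero because `δ` is not a square).  If `A = X * B` with `A = z0^2 - δ z1^2`,
`B = z2^2 - δ z3^2` and `B ≠ 0`: even natDegree = odd natDegree, contradiction; so `B = 0`, `A = 0`,
`z = 0`.
-/

namespace Pool.Agent.H14.AM

open Finset Polynomial

private lemma oe_scalar {F : Type} [Field F] (δ : F) (hδ : ¬ IsSquare δ) (a b : F)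
    (h : a ^ 2 - δ * b ^ 2 = 0) : a = 0 ∧ b = 0 := by
  by_cases hb : b = 0
  · subst hb
    refine ⟨?_, rfl⟩
    have : a ^ 2 = 0 := by linear_combination h
    exact pow_eq_zero_iff (two_ne_zero) |>.mp this
  · exfalso
    apply hδ
    refine ⟨a / b, ?_⟩
    field_simp
    linear_combination -h

private lemma oe_key {F : Type} [Field F] (δ : F) (hδ : ¬ IsSquare δ) (p q : F[X])
    (h : p ≠ 0 ∨ q ≠ 0) :
    p ^ 2 - C δ * q ^ 2 ≠ 0 ∧ ∃ m : ℕ, (p ^ 2 - C δ * q ^ 2).natDegree = 2 * m := by
  have hp : p.natDegree ≤ max p.natDegree q.natDegree := le_max_left _ _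
  have hq : q.natDegree ≤ max p.natDegree q.natDegree := le_max_right _ _
  generalize hm : max p.natDegree q.natDegree = m at hp hq
  have hco : (p ^ 2 - C δ * q ^ 2).coeff (2 * m) = (p.coeff m) ^ 2 - δ * (q.coeff m) ^ 2 := by
    rw [coeff_sub, coeff_C_mul, coeff_pow_of_natDegree_le hp, coeff_pow_of_natDegree_le hq]
  have hne : (p ^ 2 - C δ * q ^ 2).coeff (2 * m) ≠ 0 := by
    rw [hco]
    intro h0
    obtain ⟨ha, hb⟩ := oe_scalar δ hδ _ _ h0
    rcases le_total p.natDegree q.natDegree with hle | hle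
    · have hmq : m = q.natDegree := by rw [← hm]; exact max_eq_right hle
      have hq0 : q = 0 := by
        rw [hmq] at hb
        exact leadingCoeff_eq_zero.mp hb
      have hp0 : p = 0 := by
        subst hq0
        have hpd : p.natDegree = 0 := by
          have := hle
          simpa using this
        have hm0 : m = 0 := by rw [hmq]; simp
        rw [hm0] at ha
        rw [eq_C_of_natDegree_eq_zero hpd, ha, C_0]
      rcases h with h | h
      · exact h hp0
      · exact h hq0
    · have hmp : m = p.natDegree := by rw [← hm]; exact max_eq_left hle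
      have hp0 : p = 0 := by
        rw [hmp] at ha
        exact leadingCoeff_eq_zero.mp ha
      have hq0 : q = 0 := by
        subst hp0
        have hqd : q.natDegree = 0 := by
          have := hle
          simpa using this
        have hm0 : m = 0 := by rw [hmp]; simp
        rw [hm0] at hb
        rw [eq_C_of_natDegree_eq_zero hqd, hb, C_0]
      rcases h with h | h
      · exact h hp0
      · exact h hq0
  refine ⟨fun h0 => hne (by rw [h0, coeff_zero]), m, ?_⟩
  apply le_antisymm
  · refine (natDegree_sub_le _ _).trans (max_le ?_ ?_)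
    · exact natDegree_pow_le_of_le 2 hp
    · exact (natDegree_C_mul_le _ _).trans (natDegree_pow_le_of_le 2 hq)
  · exact le_natDegree_of_ne_zero hne

theorem oeven_ne_zero {F : Type} [Field F] (δ : F) (hδ : ¬ IsSquare δ) (z : Fin 4 → F[X])
    (h0 : z ≠ 0) :
    (z 0) ^ 2 - C δ * (z 1) ^ 2 - X * ((z 2) ^ 2 - C δ * (z 3) ^ 2) ≠ 0 := by
  intro h
  apply h0
  by_cases hB : z 2 ≠ 0 ∨ z 3 ≠ 0
  · exfalso
    obtain ⟨hBne, mB, hmB⟩ := oe_key δ hδ (z 2) (z 3) hB
    have hA : (z 0) ^ 2 - C δ * (z 1) ^ 2 = X * ((z 2) ^ 2 - C δ * (z 3) ^ 2) :=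
      sub_eq_zero.mp h
    have hAne : (z 0) ^ 2 - C δ * (z 1) ^ 2 ≠ 0 := by
      rw [hA]
      exact mul_ne_zero X_ne_zero hBne
    have hA01 : z 0 ≠ 0 ∨ z 1 ≠ 0 := by
      by_contra hcon
      push Not at hcon
      apply hAne
      rw [hcon.1, hcon.2]
      simp
    obtain ⟨_, mA, hmA⟩ := oe_key δ hδ (z 0) (z 1) hA01
    have hdeg := congrArg natDegree hA
    rw [natDegree_X_mul hBne, hmA, hmB] at hdeg
    omega
  · push Not at hB
    have hA0 : z 0 = 0 ∧ z 1 = 0 := by
      by_contra hcon
      have hA01 : z 0 ≠ 0 ∨ z 1 ≠ 0 := by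
        by_contra hc
        push Not at hc
        exact hcon hc
      have := (oe_key δ hδ (z 0) (z 1) hA01).1
      apply this
      have h' := h
      rw [hB.1, hB.2] at h'
      simpa using h'
    funext i
    fin_cases i
    · exact hA0.1
    · exact hA0.2
    · exact hB.1
    · exact hB.2

end Pool.Agent.H14.AM
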