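import Pool.Agent.H14.AM.Master
import Pool.Agent.H14.AM.OEvenNZ

/-!
Job AM-OEven. Odd characteristic, `2 s + 2` parties, `0 ≤ s ≤ q - 1`.

PROOF. Let `δ` be a nonsquare, `S` a set of `s` nonzero elements of `F`.  Apply `master` with
`κ = X`, `Q z = (z 0)^2 - C δ * (z 1)^2 - X * ((z 2)^2 - C δ * (z 3)^2)`,
`a = ![s/2 + 1, s/2 + 1, (s+1)/2, (s+1)/2]` (sum `2 s + 2`), `E = Bool`, `g true c = (P4 c 0, P4 c 1)`
evaluated at `0` (i.e. coefficients `0`), `g false c = (P4 c 0, P4 c 1)` at coefficient `s/2` if `s`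
is even, `(P4 c 2, P4 c 3)` at coefficient `s / 2` if `s` is odd,
`ν x = ∏ y ∈ (insert 0 S).erase x, (x - y)⁻¹`, `ω true = ∏ y ∈ (insert 0 S).erase 0, (0 - y)⁻¹`,
`ω false = -1`, `w = 1/2`.
For `x ∈ S` choose `a b` with `a^2 - δ b^2 = x` (`FiniteField.exists_root_sum_quadratic`) and
`f true x v = (v0 - (a v2 + δ b v3), v1 - (b v2 + a v3))`, `f false` with `+`.
`hS`: `1/2 (det2 (p - M r) (p' - M r') + det2 (p + M r) (p' + M r')) = det2 p p' + det M * det2 r r'`
and `det M = a^2 - δ b^2 = x`.  `hN`: `p = ± M r` implies `p0^2 - δ p1^2 = x (r0^2 - δ r1^2)`.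
relation: `T = Tform X z z'` has degree `≤ s`, i.e. `< card (insert 0 S)`; `sum_nodal` for
`insert 0 S`: the point `0` contributes `ω true * det2 (g true c) (g true c')` (`T.eval 0`), and
`T.coeff s = det2 (g false c) (g false c')`.
count: `Q (P4 c) ≠ 0` (`oeven_ne_zero`: the polynomials `A = z0^2 - δ z1^2`, `B = z2^2 - δ z3^2` have
even natDegree or vanish, and vanish only if both arguments vanish; `A = X * B` is impossible unless
`A = B = 0`); `natDegree ≤ s`, and `≤ s - 1` (`< s`, or the polynomial is zero) if `g false c = 0`;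
if `g true c = 0` then `X ∣ Q (P4 c)`, i.e. `(X - C 0)^1` divides.  So, by `sum_le_natDegree` for
`insert 0 S` with `e 0 := if g true c = 0 then 1 else 0`, the total number of zeros is `≤ s`, and
`2 s < 2 s + 2`.  (For `s = 0`: `Q = z0^2 - δ z1^2` with constants, `g true = g false` is injective.)
-/

namespace Pool.Agent.H14.AM

open Finset Polynomial

private theorem OEven_big {F : Type} [Field F] {s : ℕ} {p q : F[X]} (hp : p.natDegree ≤ s / 2)
    (hq : q.natDegree ≤ s / 2) : (p * q).natDegree ≤ s ∧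
      (p * q).coeff s = if Even s then p.coeff (s / 2) * q.coeff (s / 2) else 0 := by
  have h0 := natDegree_mul_le (p := p) (q := q)
  refine ⟨by omega, ?_⟩
  split_ifs with h
  · obtain ⟨k, hk⟩ := h
    have h1 : s / 2 = k := by omega
    rw [h1] at hp hq ⊢
    rw [hk]
    exact coeff_mul_add_eq_of_natDegree_le hp hq
  · rw [Nat.not_even_iff] at h
    exact coeff_eq_zero_of_natDegree_lt (by omega)

private theorem OEven_small {F : Type} [Field F] {s : ℕ} {p q : F[X]}
    (hp : p.degree < (((s + 1) / 2 : ℕ) : WithBot ℕ))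
    (hq : q.degree < (((s + 1) / 2 : ℕ) : WithBot ℕ)) : (X * (p * q)).natDegree ≤ s ∧
      (X * (p * q)).coeff s = if Even s then 0 else p.coeff (s / 2) * q.coeff (s / 2) := by
  by_cases hp0 : p = 0
  · simp [hp0]
  by_cases hq0 : q = 0
  · simp [hq0]
  have h1 := (natDegree_lt_iff_degree_lt hp0).2 hp
  have h2 := (natDegree_lt_iff_degree_lt hq0).2 hq
  have h0 := natDegree_mul_le (p := p) (q := q)
  have h3 := natDegree_mul_le (p := (X : F[X])) (q := p * q)
  have h4 : (X : F[X]).natDegree ≤ 1 := natDegree_X_le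
  refine ⟨by omega, ?_⟩
  obtain ⟨t, rfl⟩ : ∃ t, s = t + 1 := ⟨s - 1, by omega⟩
  rw [coeff_X_mul]
  split_ifs with h
  · rw [Nat.even_iff] at h
    exact coeff_eq_zero_of_natDegree_lt (by omega)
  · rw [Nat.not_even_iff] at h
    obtain ⟨k, hk⟩ : ∃ k, t = k + k := ⟨t / 2, by omega⟩
    have h5 : (t + 1) / 2 = k := by omega
    rw [h5, hk]
    exact coeff_mul_add_eq_of_natDegree_le (by omega) (by omega)

/-- the second coordinate pair at infinity -/
private noncomputable def OEven_top {F : Type} [Field F] (s : ℕ) (z : Fin 4 → F[X]) : F × F :=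
  if Even s then ((z 0).coeff (s / 2), (z 1).coeff (s / 2))
  else ((z 2).coeff (s / 2), (z 3).coeff (s / 2))

private def OEven_bd {F : Type} [Field F] (s : ℕ) (z : Fin 4 → F[X]) : Prop :=
  (z 0).natDegree ≤ s / 2 ∧ (z 1).natDegree ≤ s / 2 ∧
  (z 2).degree < (((s + 1) / 2 : ℕ) : WithBot ℕ) ∧ (z 3).degree < (((s + 1) / 2 : ℕ) : WithBot ℕ)

private theorem OEven_T {F : Type} [Field F] {s : ℕ} {z z' : Fin 4 → F[X]} (hz : OEven_bd s z)
    (hz' : OEven_bd s z') : (Tform X z z').natDegree ≤ s ∧
      (Tform X z z').coeff s = det2 (OEven_top s z) (OEven_top s z') := by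
  obtain ⟨h0, h1, h2, h3⟩ := hz
  obtain ⟨h0', h1', h2', h3'⟩ := hz'
  have e : Tform X z z' = (z 0 * z' 1 - z 1 * z' 0) + (X * (z 2 * z' 3) - X * (z 3 * z' 2)) := by
    unfold Tform
    ring
  have a1 := OEven_big h0 h1'
  have a2 := OEven_big h1 h0'
  have a3 := OEven_small h2 h3'
  have a4 := OEven_small h3 h2'
  rw [e]
  constructor
  · refine (natDegree_add_le _ _).trans (max_le ?_ ?_)
    · exact (natDegree_sub_le _ _).trans (max_le a1.1 a2.1)
    · exact (natDegree_sub_le _ _).trans (max_le a3.1 a4.1)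
  · rw [coeff_add, coeff_sub, coeff_sub, a1.2, a2.2, a3.2, a4.2]
    unfold OEven_top det2
    by_cases h : Even s <;> simp [h]

private theorem OEven_Q {F : Type} [Field F] {s : ℕ} (δ : F) {z : Fin 4 → F[X]}
    (hz : OEven_bd s z) :
    ((z 0) ^ 2 - C δ * (z 1) ^ 2 - X * ((z 2) ^ 2 - C δ * (z 3) ^ 2)).natDegree ≤ s ∧
    (OEven_top s z = 0 →
      ((z 0) ^ 2 - C δ * (z 1) ^ 2 - X * ((z 2) ^ 2 - C δ * (z 3) ^ 2)).coeff s = 0) := by
  obtain ⟨h0, h1, h2, h3⟩ := hz
  have e : (z 0) ^ 2 - C δ * (z 1) ^ 2 - X * ((z 2) ^ 2 - C δ * (z 3) ^ 2) =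
      (z 0 * z 0 - C δ * (z 1 * z 1)) - (X * (z 2 * z 2) - C δ * (X * (z 3 * z 3))) := by
    ring
  have a1 := OEven_big h0 h0
  have a2 := OEven_big h1 h1
  have a3 := OEven_small h2 h2
  have a4 := OEven_small h3 h3
  rw [e]
  constructor
  · refine (natDegree_sub_le _ _).trans (max_le ?_ ?_)
    · exact (natDegree_sub_le _ _).trans (max_le a1.1 ((natDegree_C_mul_le _ _).trans a2.1))
    · exact (natDegree_sub_le _ _).trans (max_le a3.1 ((natDegree_C_mul_le _ _).trans a4.1))
  · intro ht
    rw [coeff_sub, coeff_sub, coeff_sub, coeff_C_mul, coeff_C_mul, a1.2, a2.2, a3.2, a4.2]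
    unfold OEven_top at ht
    by_cases h : Even s
    · rw [if_pos h, Prod.mk_eq_zero] at ht
      simp [h, ht.1, ht.2]
    · rw [if_neg h, Prod.mk_eq_zero] at ht
      simp [h, ht.1, ht.2]

private noncomputable def OEven_co {F : Type} [Field F] (a : Fin 4 → ℕ) (i : Fin 4) (k : ℕ) :
    ((i : Fin 4) → Fin (a i) → F) →ₗ[F] F where
  toFun c := (P4 c i).coeff k
  map_add' c c' := by
    show (poly ((c + c') i)).coeff k = (poly (c i)).coeff k + (poly (c' i)).coeff k
    rw [Pi.add_apply, poly_add, coeff_add]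
  map_smul' r c := by
    show (poly ((r • c) i)).coeff k = r * (poly (c i)).coeff k
    rw [Pi.smul_apply, poly_smul, coeff_C_mul]

private def OEven_f {F : Type} [Field F] (σ δ a b : F) : (Fin 4 → F) →ₗ[F] F × F where
  toFun v := (v 0 - σ * (a * v 2 + δ * b * v 3), v 1 - σ * (b * v 2 + a * v 3))
  map_add' v v' := by
    ext <;> simp only [Pi.add_apply, Prod.fst_add, Prod.snd_add] <;> ring
  map_smul' r v := by
    ext <;> simp only [Pi.smul_apply, smul_eq_mul, Prod.smul_fst, Prod.smul_snd,
      RingHom.id_apply] <;> ring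

theorem hasAMEx_odd_char_even {F : Type} [Field F] [Fintype F] [DecidableEq F]
    (h2 : (2 : F) ≠ 0) (s : ℕ) (hs : s + 1 ≤ Fintype.card F) :
    HasAMEx (2 * s + 2) F := by
  classical
  have hchar : ringChar F ≠ 2 := by
    intro h
    have h3 := CharP.cast_eq_zero F (ringChar F)
    rw [h] at h3
    exact h2 (by exact_mod_cast h3)
  obtain ⟨δ, hδ⟩ := FiniteField.exists_nonsquare hchar
  have hδ0 : δ ≠ 0 := by
    rintro rfl
    exact hδ (IsSquare.zero)
  have hodd := FiniteField.odd_card_of_char_ne_two hchar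
  have hab : ∀ x : F, ∃ a b : F, a ^ 2 - δ * b ^ 2 = x := by
    intro x
    have d1 : degree (X ^ 2 - C x : F[X]) = 2 := degree_X_pow_sub_C (by decide) _
    have d2 : degree (C (-δ) * X ^ 2 : F[X]) = 2 := by
      rw [degree_C_mul (neg_ne_zero.2 hδ0), degree_X_pow]
      rfl
    obtain ⟨a, b, h⟩ := FiniteField.exists_root_sum_quadratic d1 d2 hodd
    refine ⟨a, b, ?_⟩
    simp only [eval_sub, eval_pow, eval_X, eval_C, eval_mul] at h
    linear_combination h
  choose A B hAB using hab
  obtain ⟨S, hSsub, hScard⟩ := Finset.exists_subset_card_eq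
    (s := (univ : Finset F).erase 0) (n := s)
    (by rw [Finset.card_erase_of_mem (mem_univ _), Finset.card_univ]; omega)
  have hS0 : (0 : F) ∉ S := fun h => (Finset.mem_erase.1 (hSsub h)).1 rfl
  have hSne : ∀ x ∈ S, x ≠ 0 := fun x hx => (Finset.mem_erase.1 (hSsub hx)).1
  have hins : (insert 0 S).card = s + 1 := by rw [Finset.card_insert_of_notMem hS0, hScard]
  -- the data
  set a : Fin 4 → ℕ := ![s / 2 + 1, s / 2 + 1, (s + 1) / 2, (s + 1) / 2] with ha
  have hbd : ∀ c : (i : Fin 4) → Fin (a i) → F, OEven_bd s (P4 c) := by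
    intro c
    have hnat : ∀ i : Fin 4, a i = s / 2 + 1 → (P4 c i).natDegree ≤ s / 2 := by
      intro i hi
      have h3 : (P4 c i).degree < ((a i : ℕ) : WithBot ℕ) := degree_poly_lt (c i)
      rw [hi] at h3
      by_cases h4 : P4 c i = 0
      · rw [h4]; simp
      · have h5 := (natDegree_lt_iff_degree_lt h4).2 h3
        omega
    exact ⟨hnat 0 rfl, hnat 1 rfl, degree_poly_lt (c 2), degree_poly_lt (c 3)⟩
  have key := master (F := F) S a X
    (fun z => (z 0) ^ 2 - C δ * (z 1) ^ 2 - X * ((z 2) ^ 2 - C δ * (z 3) ^ 2))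
    (by intro c z; ring)
    (fun b x => OEven_f (if b then 1 else -1) δ (A x) (B x))
    (fun _ _ => (2 : F)⁻¹) (fun _ _ _ => inv_ne_zero h2)
    (by intro x hx; rw [eval_X]; exact hSne x hx)
    (by
      intro x hx v v'
      have h3 := hAB x
      rw [eval_X]
      simp only [OEven_f, det2, LinearMap.coe_mk, AddHom.coe_mk, if_true, Bool.false_eq_true,
        if_false]
      field_simp
      linear_combination (2 * (v 2 * v' 3 - v 3 * v' 2)) * h3)
    (by
      intro b x hx z hz
      have h3 := hAB x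
      have h4 : (z 0).eval x - (if b then (1 : F) else -1) *
          (A x * (z 2).eval x + δ * B x * (z 3).eval x) = 0 := congrArg Prod.fst hz
      have h5 : (z 1).eval x - (if b then (1 : F) else -1) *
          (B x * (z 2).eval x + A x * (z 3).eval x) = 0 := congrArg Prod.snd hz
      have h6 := sub_eq_zero.1 h4
      have h7 := sub_eq_zero.1 h5
      simp only [eval_sub, eval_pow, eval_mul, eval_C, eval_X]
      rw [h6, h7]
      have h8 : (if b then (1 : F) else -1) ^ 2 = 1 := by cases b <;> simp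
      rw [mul_pow, mul_pow, h8]
      linear_combination ((z 2).eval x ^ 2 - δ * (z 3).eval x ^ 2) * h3)
    (E := Bool)
    (fun b => if b then (OEven_co a 0 0).prod (OEven_co a 1 0)
      else if Even s then (OEven_co a 0 (s / 2)).prod (OEven_co a 1 (s / 2))
      else (OEven_co a 2 (s / 2)).prod (OEven_co a 3 (s / 2)))
    (fun b => if b then ∏ y ∈ (insert 0 S).erase 0, ((0 : F) - y)⁻¹ else -1)
    (by
      intro b
      cases b
      · simp
      · exact nodal_ne_zero (insert 0 S) 0)
    (fun x => ∏ y ∈ (insert 0 S).erase x, (x - y)⁻¹)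
    (by intro x hx; exact nodal_ne_zero (insert 0 S) x)
    (by
      intro c c'
      have hT := OEven_T (hbd c) (hbd c')
      have hdeg : (Tform X (P4 c) (P4 c')).degree < (((insert 0 S).card : ℕ) : WithBot ℕ) := by
        rw [hins]
        refine (degree_le_natDegree).trans_lt ?_
        have := hT.1
        exact_mod_cast (by omega : (Tform X (P4 c) (P4 c')).natDegree < s + 1)
      have hn := sum_nodal (insert 0 S) ⟨0, Finset.mem_insert_self _ _⟩ _ hdeg
      rw [Finset.sum_insert hS0, hins, Nat.add_sub_cancel, hT.2] at hn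
      have h0 : (Tform X (P4 c) (P4 c')).eval 0 =
          det2 ((P4 c 0).coeff 0, (P4 c 1).coeff 0) ((P4 c' 0).coeff 0, (P4 c' 1).coeff 0) := by
        unfold Tform det2
        simp only [eval_add, eval_sub, eval_mul, eval_X, coeff_zero_eq_eval_zero, zero_mul,
          add_zero]
      rw [h0] at hn
      rw [Fintype.sum_bool]
      have g1 : ((if true = true then (OEven_co a 0 0).prod (OEven_co a 1 0)
          else if Even s then (OEven_co a 0 (s / 2)).prod (OEven_co a 1 (s / 2))
          else (OEven_co a 2 (s / 2)).prod (OEven_co a 3 (s / 2)) :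
          ((i : Fin 4) → Fin (a i) → F) →ₗ[F] F × F)) = (OEven_co a 0 0).prod (OEven_co a 1 0) :=
        rfl
      have g2 : ∀ c : (i : Fin 4) → Fin (a i) → F,
          (if Even s then (OEven_co a 0 (s / 2)).prod (OEven_co a 1 (s / 2))
          else (OEven_co a 2 (s / 2)).prod (OEven_co a 3 (s / 2)) :
          ((i : Fin 4) → Fin (a i) → F) →ₗ[F] F × F) c = OEven_top s (P4 c) := by
        intro c
        unfold OEven_top
        by_cases h : Even s
        · rw [if_pos h, if_pos h]; rfl
        · rw [if_neg h, if_neg h]; rfl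
      simp only [if_true, Bool.false_eq_true, if_false, g2]
      have g3 : ∀ c : (i : Fin 4) → Fin (a i) → F,
          ((OEven_co a 0 0).prod (OEven_co a 1 0)) c = ((P4 c 0).coeff 0, (P4 c 1).coeff 0) :=
        fun _ => rfl
      rw [g3, g3]
      linear_combination hn)
    (by
      intro c hc e he
      have hP : P4 c ≠ 0 := by
        intro h
        apply hc
        funext i
        exact (poly_eq_zero (c i)).1 (congrFun h i)
      have hN := oeven_ne_zero δ hδ (P4 c) hP
      have hQ := OEven_Q δ (hbd c)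
      rw [Finset.card_filter, Fintype.sum_bool]
      have g2 : (if Even s then (OEven_co a 0 (s / 2)).prod (OEven_co a 1 (s / 2))
          else (OEven_co a 2 (s / 2)).prod (OEven_co a 3 (s / 2)) :
          ((i : Fin 4) → Fin (a i) → F) →ₗ[F] F × F) c = OEven_top s (P4 c) := by
        unfold OEven_top
        by_cases h : Even s
        · rw [if_pos h, if_pos h]; rfl
        · rw [if_neg h, if_neg h]; rfl
      have g3 : ((OEven_co a 0 0).prod (OEven_co a 1 0)) c =
          ((P4 c 0).coeff 0, (P4 c 1).coeff 0) := rfl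
      simp only [if_true, Bool.false_eq_true, if_false, g2, g3]
      have hsum := sum_le_natDegree (insert 0 S) _ hN
        (fun x => if x = 0 then
          (if ((P4 c 0).coeff 0, (P4 c 1).coeff 0) = (0 : F × F) then 1 else 0) else e x)
        (by
          intro x hx
          rcases Finset.mem_insert.1 hx with rfl | hx
          · simp only [if_true]
            split_ifs with ht
            · rw [Prod.mk_eq_zero] at ht
              rw [pow_one, C_0, sub_zero, X_dvd_iff, coeff_zero_eq_eval_zero]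
              have ht1 := ht.1
              have ht2 := ht.2
              rw [coeff_zero_eq_eval_zero] at ht1 ht2
              simp [ht1, ht2]
            · rw [pow_zero]
              exact one_dvd _
          · simp only [if_neg (hSne x hx)]
            exact he x hx)
      rw [Finset.sum_insert hS0] at hsum
      have hcongr : ∑ x ∈ S, (if x = 0 then
          (if ((P4 c 0).coeff 0, (P4 c 1).coeff 0) = (0 : F × F) then 1 else 0) else e x) =
          ∑ x ∈ S, e x :=
        Finset.sum_congr rfl fun x hx => if_neg (hSne x hx)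
      rw [hcongr] at hsum
      simp only [if_true] at hsum
      have hlt : OEven_top s (P4 c) = 0 →
          ((P4 c 0) ^ 2 - C δ * (P4 c 1) ^ 2 - X * ((P4 c 2) ^ 2 - C δ * (P4 c 3) ^ 2)).natDegree
            < s := by
        intro ht
        refine lt_of_le_of_ne hQ.1 fun h => hN ?_
        rw [← leadingCoeff_eq_zero, leadingCoeff, h]
        exact hQ.2 ht
      have hle := hQ.1
      rw [hScard, Fintype.card_bool]
      generalize ((P4 c 0) ^ 2 - C δ * (P4 c 1) ^ 2 -
        X * ((P4 c 2) ^ 2 - C δ * (P4 c 3) ^ 2)).natDegree = N at hsum hlt hle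
      by_cases ht : OEven_top s (P4 c) = 0
      · have := hlt ht
        rw [if_pos ht]
        omega
      · rw [if_neg ht]
        omega)
    (by
      rw [hScard]
      simp only [ha, Fin.sum_univ_four, Matrix.cons_val, Fintype.card_bool]
      omega)
  rw [hScard, Fintype.card_bool] at key
  exact key

end Pool.Agent.H14.AM
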