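import Pool.Agent.H14.AM.Defs

/-!
Job AM-OOddFibre.

PROOF. If `x ≠ 0`: choose `a c` with `a^2 - e c^2 = x` (`FiniteField.exists_root_sum_quadratic`; `F` has
odd cardinality because `2 ≠ 0`), and `b = (e c - ε a)/x`, `d = (a - ε c)/x`; all four identities are
checked with `field_simp`/`ring`/`linear_combination` (they use `e - ε^2 = x e1`; e.g.
`b^2 - e d^2 = (ε^2 - e)(a^2 - e c^2)/x^2 = (ε^2 - e)/x = -e1`).
If `x = 0` (so `e = ε^2`): `a = ε`, `c = 1`, `d = (1 + e1)/(2 ε)`, `b = ε d - 1`.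
-/

namespace Pool.Agent.H14.AM

open Finset Polynomial

theorem OOddFibre_repr {F : Type} [Field F] [Fintype F] (h2 : (2 : F) ≠ 0) (x e : F)
    (he0 : e ≠ 0) : ∃ a c : F, a ^ 2 - e * c ^ 2 = x := by
  have hodd : Fintype.card F % 2 = 1 := by
    apply FiniteField.odd_card_of_char_ne_two
    intro h
    apply h2
    have := CharP.cast_eq_zero F (ringChar F)
    rw [h] at this
    exact_mod_cast this
  have hf : degree (X ^ 2 - C x : F[X]) = 2 := degree_X_pow_sub_C (by norm_num) x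
  have hg : degree (C (-e) * X ^ 2 : F[X]) = 2 := by
    rw [degree_C_mul (neg_ne_zero.mpr he0), degree_X_pow]; rfl
  obtain ⟨a, c, h⟩ := FiniteField.exists_root_sum_quadratic hf hg hodd
  refine ⟨a, c, ?_⟩
  simp only [eval_sub, eval_pow, eval_X, eval_C, eval_mul] at h
  linear_combination h

theorem oodd_fibre {F : Type} [Field F] [Fintype F] (h2 : (2 : F) ≠ 0) (x e e1 ε : F)
    (hε : ε ≠ 0) (he0 : e ≠ 0) (he : e = ε ^ 2 + x * e1) :
    ∃ a b c d : F, a * d - b * c = 1 ∧ a ^ 2 - e * c ^ 2 = x ∧ a * b - e * c * d = -ε ∧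
      b ^ 2 - e * d ^ 2 = -e1 := by
  by_cases hx : x = 0
  · subst hx
    refine ⟨ε, ε * ((1 + e1) / (2 * ε)) - 1, 1, (1 + e1) / (2 * ε), ?_, ?_, ?_, ?_⟩
    · ring
    · rw [he]; ring
    · rw [he]; ring
    · have h3 : ε * ((1 + e1) / (2 * ε)) = (1 + e1) / 2 := by field_simp
      have h4 : 2 * (ε * ((1 + e1) / (2 * ε))) = 1 + e1 := by rw [h3]; field_simp
      rw [he]
      linear_combination -h4
  · obtain ⟨a, c, hac⟩ := OOddFibre_repr h2 x e he0
    refine ⟨a, (e * c - ε * a) / x, c, (a - ε * c) / x, ?_, hac, ?_, ?_⟩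
    · field_simp
      linear_combination hac
    · field_simp
      linear_combination -ε * hac
    · have h5 : (e * c - ε * a) ^ 2 - e * (a - ε * c) ^ 2 = -e1 * x ^ 2 := by
        have : (e * c - ε * a) ^ 2 - e * (a - ε * c) ^ 2 = (ε ^ 2 - e) * (a ^ 2 - e * c ^ 2) := by
          ring
        rw [this, hac, he]; ring
      have h6 : x ^ 2 ≠ 0 := pow_ne_zero 2 hx
      rw [div_pow, div_pow, ← mul_div_assoc, ← sub_div, div_eq_iff h6]
      exact h5

end Pool.Agent.H14.AM
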