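import Pool.Agent.H14.AM.OddCommon

/-!
Job AM-OOddTop.

PROOF. Under `Bd m z` the `m`-th coefficient of `q` is
`(z0[k])^2 - u (z1[k-1])^2` if `m = 2k` (`(z0[0])^2` if `k = 0`, where `z1 = z2 = z3 = 0`), and
`-((z2[k])^2 - u (z3[k])^2)` if `m = 2k+1` (`Polynomial.coeff_mul_of_natDegree_le`,
`Polynomial.coeff_eq_zero_of_natDegree_lt`), all products have degree at most `m`; and `A^2 = u B^2`
implies `A = B = 0` because `u` is not a square.  (It may be convenient to write
`z0 = C a * X^k + z0'` etc. with lower degree remainders, or to bound `natDegree` of each product.)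
-/

namespace Pool.Agent.H14.AM

open Finset Polynomial

theorem oot_nd {F : Type} [Field F] {p : F[X]} {n : ℕ}
    (h : p.degree < ((n + 1 : ℕ) : WithBot ℕ)) : p.natDegree ≤ n := by
  rw [natDegree_le_iff_coeff_eq_zero]
  intro N hN
  exact (degree_lt_iff_coeff_zero p (n + 1)).1 h N hN

theorem oot_sub {F : Type} [Field F] {p q : F[X]} {n : ℕ} (hp : p.natDegree ≤ n)
    (hq : q.natDegree ≤ n) : (p - q).natDegree ≤ n :=
  (natDegree_sub_le_of_le hp hq).trans (max_self n).le

theorem oot_zero {F : Type} [Field F] {p : F[X]}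
    (h : p.degree < ((0 : ℕ) : WithBot ℕ)) : p = 0 := by
  ext N
  exact (degree_lt_iff_coeff_zero p 0).1 h N (Nat.zero_le N)

theorem oot_sq {F : Type} [Field F] {u a b : F} (hu : ¬ IsSquare u) (h : a ^ 2 = u * b ^ 2) :
    a = 0 ∧ b = 0 := by
  have hb : b = 0 := by
    by_contra hb
    apply hu
    refine ⟨a / b, ?_⟩
    rw [div_mul_div_comm, ← pow_two, ← pow_two, h, mul_div_cancel_right₀ _ (pow_ne_zero 2 hb)]
  subst hb
  refine ⟨?_, rfl⟩
  rw [zero_pow two_ne_zero, mul_zero] at h
  exact pow_eq_zero_iff two_ne_zero |>.1 h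

theorem oot_B {F : Type} [Field F] (u u' e : F) :
    (C (e ^ 2) + X * (C u * X + C u') : F[X]).natDegree ≤ 2 ∧
      (C (e ^ 2) + X * (C u * X + C u') : F[X]).coeff 2 = u := by
  constructor
  · compute_degree
  · have h1 : (C (e ^ 2) + X * (C u * X + C u') : F[X]) = C u * X ^ 2 + C u' * X + C (e ^ 2) := by
      ring
    rw [h1]
    simp only [coeff_add, coeff_C_mul, coeff_X_pow, coeff_X, coeff_C]
    norm_num

theorem oot_D {F : Type} [Field F] (u u' : F) :
    (C u * X + C u' : F[X]).natDegree ≤ 1 ∧ (C u * X + C u' : F[X]).coeff 1 = u := by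
  constructor
  · compute_degree
  · simp [coeff_C]

theorem oodd_top {F : Type} [Field F] (u u' ε : F) (hu : ¬ IsSquare u) (m : ℕ)
    (z : Fin 4 → F[X]) (hz : Bd m z) (q : F[X])
    (hq : q = (z 0) ^ 2 - (C (ε ^ 2) + X * (C u * X + C u')) * (z 1) ^ 2
        - (X * (z 2) ^ 2 - C (2 * ε) * (z 2) * (z 3) - (C u * X + C u') * (z 3) ^ 2)) :
    q.natDegree ≤ m ∧ (q.coeff m = 0 → top m z = 0) := by
  obtain ⟨h0, h1, h2, h3⟩ := hz
  obtain ⟨hB1, hB2⟩ := oot_B u u' ε
  obtain ⟨hD1, hD2⟩ := oot_D u u'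
  generalize hBB : (C (ε ^ 2) + X * (C u * X + C u') : F[X]) = B at *
  generalize hDD : (C u * X + C u' : F[X]) = D at *
  rcases Nat.even_or_odd' m with ⟨k, rfl | rfl⟩
  · have e1 : 2 * k / 2 = k := by omega
    have e2 : (2 * k + 1) / 2 = k := by omega
    rw [e1] at h0 h1
    rw [e2] at h2 h3
    cases k with
    | zero =>
      have z1 := oot_zero h1
      have z2 := oot_zero h2
      have z3 := oot_zero h3
      have d0 := oot_nd h0
      rw [z1, z2, z3] at hq
      have hq' : q = (z 0) ^ 2 := by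
        rw [hq]
        ring
      constructor
      · rw [hq']
        have := natDegree_pow_le_of_le 2 d0
        simpa using this
      · intro hc
        rw [hq'] at hc
        have hc2 := coeff_pow_of_natDegree_le (m := 2) d0
        simp only [mul_zero] at hc2 hc
        rw [hc] at hc2
        have hc3 : (z 0).coeff 0 = 0 := pow_eq_zero_iff two_ne_zero |>.1 hc2.symm
        unfold top
        rw [if_pos (by decide)]
        simp [hc3, z1]
    | succ j =>
      have d0 := oot_nd h0
      have d1 := oot_nd h1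
      have d2 := oot_nd h2
      have d3 := oot_nd h3
      have n0 : ((z 0) ^ 2).natDegree ≤ 2 * (j + 1) := natDegree_pow_le_of_le 2 d0
      have n1 : ((z 1) ^ 2).natDegree ≤ 2 * j := natDegree_pow_le_of_le 2 d1
      have n2 : ((z 2) ^ 2).natDegree ≤ 2 * j := natDegree_pow_le_of_le 2 d2
      have n3 : ((z 3) ^ 2).natDegree ≤ 2 * j := natDegree_pow_le_of_le 2 d3
      have m1 : (B * (z 1) ^ 2).natDegree ≤ 2 + 2 * j := natDegree_mul_le_of_le hB1 n1
      have m2 : (X * (z 2) ^ 2 : F[X]).natDegree ≤ 1 + 2 * j :=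
        natDegree_mul_le_of_le natDegree_X_le n2
      have m23 : (C (2 * ε) * (z 2) * (z 3)).natDegree ≤ 0 + j + j :=
        natDegree_mul_le_of_le (natDegree_mul_le_of_le (natDegree_C _).le d2) d3
      have m3 : (D * (z 3) ^ 2).natDegree ≤ 1 + 2 * j := natDegree_mul_le_of_le hD1 n3
      have hT : (X * (z 2) ^ 2 - C (2 * ε) * (z 2) * (z 3) - D * (z 3) ^ 2).natDegree
          ≤ 2 * j + 1 :=
        oot_sub (oot_sub (m2.trans (by omega)) (m23.trans (by omega)))
          (m3.trans (by omega))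
      constructor
      · rw [hq]
        exact oot_sub (oot_sub n0 (m1.trans (by omega)))
          (hT.trans (by omega))
      · intro hc
        rw [hq, coeff_sub, coeff_sub, coeff_eq_zero_of_natDegree_lt (lt_of_le_of_lt hT (by omega)),
          sub_zero] at hc
        have c0 : ((z 0) ^ 2).coeff (2 * (j + 1)) = (z 0).coeff (j + 1) ^ 2 :=
          coeff_pow_of_natDegree_le d0
        have c1 : (B * (z 1) ^ 2).coeff (2 * (j + 1)) = u * (z 1).coeff j ^ 2 := by
          have e3 : 2 * (j + 1) = 2 + 2 * j := by ring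
          rw [e3, coeff_mul_add_eq_of_natDegree_le hB1 n1, hB2, coeff_pow_of_natDegree_le d1]
        rw [c0, c1, sub_eq_zero] at hc
        obtain ⟨ha, hb⟩ := oot_sq hu hc
        unfold top
        rw [if_pos (even_two_mul _), e1, Nat.add_sub_cancel, ha, hb]
        rfl
  · have e1 : (2 * k + 1) / 2 = k := by omega
    have e2 : (2 * k + 1 + 1) / 2 = k + 1 := by omega
    rw [e1] at h0 h1
    rw [e2] at h2 h3
    have d0 := oot_nd h0
    have d2 := oot_nd h2
    have d3 := oot_nd h3
    have n0 : ((z 0) ^ 2).natDegree ≤ 2 * k := natDegree_pow_le_of_le 2 d0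
    have n2 : ((z 2) ^ 2).natDegree ≤ 2 * k := natDegree_pow_le_of_le 2 d2
    have n3 : ((z 3) ^ 2).natDegree ≤ 2 * k := natDegree_pow_le_of_le 2 d3
    have m1 : (B * (z 1) ^ 2).natDegree ≤ 2 * k := by
      cases k with
      | zero =>
        rw [oot_zero h1]
        simp
      | succ j =>
        have d1 := oot_nd h1
        have n1 : ((z 1) ^ 2).natDegree ≤ 2 * j := natDegree_pow_le_of_le 2 d1
        exact (natDegree_mul_le_of_le hB1 n1).trans (by omega)
    have m2 : (X * (z 2) ^ 2 : F[X]).natDegree ≤ 1 + 2 * k :=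
      natDegree_mul_le_of_le natDegree_X_le n2
    have m23 : (C (2 * ε) * (z 2) * (z 3)).natDegree ≤ 0 + k + k :=
      natDegree_mul_le_of_le (natDegree_mul_le_of_le (natDegree_C _).le d2) d3
    have m3 : (D * (z 3) ^ 2).natDegree ≤ 1 + 2 * k := natDegree_mul_le_of_le hD1 n3
    have hT : (X * (z 2) ^ 2 - C (2 * ε) * (z 2) * (z 3) - D * (z 3) ^ 2).natDegree
        ≤ 2 * k + 1 :=
      oot_sub (oot_sub (m2.trans (by omega)) (m23.trans (by omega)))
        (m3.trans (by omega))
    constructor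
    · rw [hq]
      exact oot_sub (oot_sub (n0.trans (by omega))
        (m1.trans (by omega))) hT
    · intro hc
      rw [hq, coeff_sub, coeff_sub, coeff_eq_zero_of_natDegree_lt (lt_of_le_of_lt n0 (by omega)),
        coeff_eq_zero_of_natDegree_lt (lt_of_le_of_lt m1 (by omega)), coeff_sub, coeff_sub,
        coeff_eq_zero_of_natDegree_lt (lt_of_le_of_lt m23 (by omega))] at hc
      have c2 : (X * (z 2) ^ 2 : F[X]).coeff (2 * k + 1) = (z 2).coeff k ^ 2 := by
        rw [coeff_X_mul, coeff_pow_of_natDegree_le d2]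
      have c3 : (D * (z 3) ^ 2).coeff (2 * k + 1) = u * (z 3).coeff k ^ 2 := by
        have e3 : 2 * k + 1 = 1 + 2 * k := by ring
        rw [e3, coeff_mul_add_eq_of_natDegree_le hD1 n3, hD2, coeff_pow_of_natDegree_le d3]
      rw [c2, c3] at hc
      have hc' : (z 2).coeff k ^ 2 = u * (z 3).coeff k ^ 2 := by linear_combination -hc
      obtain ⟨ha, hb⟩ := oot_sq hu hc'
      unfold top
      rw [if_neg (by simp), e1, ha, hb]
      rfl

end Pool.Agent.H14.AM
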