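import Pool.Agent.H14.AM.OddCommon
import Pool.Agent.H14.AM.OOddFibre
import Pool.Agent.H14.AM.OOddTop

/-!
Job AM-OOdd. Odd characteristic, `2 m + 1` parties, `1 ≤ m ≤ q`.

PROOF. Parameters: `u` a nonsquare (`FiniteField.exists_nonsquare`), `A B : F` with
`A^2 - u * B^2 = u` (`FiniteField.exists_root_sum_quadratic`), `B ≠ 0` (else `u` is a square),
`u' = A`, `ε = B / 2 ≠ 0`.  Put `e1 = C u * X + C u'`, `e = C (ε^2) + X * e1`, i.e.
`e(x) = u x^2 + u' x + ε^2`; `e(x) ≠ 0` for all `x ∈ F`, since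
`(2 u x + u')^2 = 4 u e(x) + (u'^2 - 4 u ε^2) = 4 u e(x) + u` and `u` is not a square.
`Q z = (z 0)^2 - e * (z 1)^2 - (X * (z 2)^2 - C (2 * ε) * (z 2) * (z 3) - e1 * (z 3)^2)`.
`H` (`oodd_top`): under `Bd m z` the `m`-th coefficient of `Q z` is `(z0[k])^2 - u (z1[k-1])^2` if
`m = 2k` (`(z0 0)^2` if `k = 0`) and `-((z2[k])^2 - u (z3[k])^2)` if `m = 2k+1`, and
`A^2 = u B^2` implies `A = B = 0` as `u` is a nonsquare.
FIBRES (`oodd_fibre`): for every `x` there are `a b c d` with
`a d - b c = 1`, `a^2 - e c^2 = x`, `a b - e c d = -ε`, `b^2 - e d^2 = -e1(x)`   (`e = e(x) ≠ 0`).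
If `x ≠ 0`: choose `a c` with `a^2 - e c^2 = x` (`FiniteField.exists_root_sum_quadratic`), and
`b = (e c - ε a)/x`, `d = (a - ε c)/x`  (uses `e - ε^2 = x e1`).
If `x = 0` (`e = ε^2`): `a = ε`, `c = 1`, `d = (1 + e1(0))/(2 ε)`, `b = ε d - 1`.
`f true x v = (v0 - (a v2 + b v3), v1 - (c v2 + d v3))`,
`f false x v = (v0 + (a v2 + b v3), v1 + (c v2 + d v3))`, `w b x = 1/2`.
`hS`: `1/2 (det2 (p - Mr) (p' - Mr') + det2 (p + Mr) (p' + Mr')) = det2 p p' + det M * det2 r r'`.
`hN`: if `p = ± M r` then `p0^2 - e p1^2 = x r0^2 - 2 ε r0 r1 - e1 r1^2`.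
Then `masterOdd` with any `S` of cardinality `m` (`Finset.exists_subset_card_eq`).
-/

namespace Pool.Agent.H14.AM

open Finset Polynomial

/-- The sign of the two conditions at a point. -/
private def sg (F : Type) [Field F] : Bool → F := fun t => if t then -1 else 1

private theorem sg_sq (F : Type) [Field F] (t : Bool) : sg F t * sg F t = 1 := by
  unfold sg
  split_ifs <;> ring

/-- The local conditions. -/
private def loc {F : Type} [Field F] (s a b c d : F) : (Fin 4 → F) →ₗ[F] F × F where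
  toFun v := (v 0 + s * (a * v 2 + b * v 3), v 1 + s * (c * v 2 + d * v 3))
  map_add' v v' := by
    rw [Prod.mk_add_mk]
    simp only [Pi.add_apply, Prod.mk.injEq]
    constructor <;> ring
  map_smul' r v := by
    rw [RingHom.id_apply, Prod.smul_mk]
    simp only [Pi.smul_apply, smul_eq_mul, Prod.mk.injEq]
    constructor <;> ring

theorem hasAMEx_odd_char_odd {F : Type} [Field F] [Fintype F] [DecidableEq F]
    (h2 : (2 : F) ≠ 0) (m : ℕ) (hm : 1 ≤ m) (hmq : m ≤ Fintype.card F) :
    HasAMEx (2 * m + 1) F := by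
  have hchar : ringChar F ≠ 2 := by
    intro h
    apply h2
    have := ringChar.Nat.cast_ringChar (R := F)
    rw [h] at this
    exact_mod_cast this
  have hodd : Fintype.card F % 2 = 1 := FiniteField.odd_card_of_char_ne_two hchar
  obtain ⟨u, hu⟩ := FiniteField.exists_nonsquare hchar
  have hu0 : u ≠ 0 := by
    rintro rfl
    exact hu (IsSquare.zero)
  obtain ⟨A, B, hAB⟩ : ∃ A B : F, A ^ 2 - u * B ^ 2 = u := by
    have hf : (X ^ 2 - C u : F[X]).degree = 2 := by
      have := degree_X_pow_sub_C (R := F) (n := 2) (by norm_num) u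
      exact_mod_cast this
    have hg : (C (-u) * X ^ 2 : F[X]).degree = 2 := by
      have := degree_C_mul_X_pow (R := F) 2 (a := -u) (neg_ne_zero.mpr hu0)
      exact_mod_cast this
    obtain ⟨A, B, h⟩ := FiniteField.exists_root_sum_quadratic hf hg hodd
    refine ⟨A, B, ?_⟩
    simp only [eval_sub, eval_pow, eval_X, eval_C, eval_mul] at h
    linear_combination h
  have hB : B ≠ 0 := by
    rintro rfl
    apply hu
    refine ⟨A, ?_⟩
    linear_combination -hAB
  obtain ⟨ε, hε2⟩ : ∃ ε : F, B = 2 * ε := ⟨B / 2, by field_simp⟩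
  have hε : ε ≠ 0 := by
    rintro rfl
    apply hB
    rw [hε2, mul_zero]
  have he0 : ∀ x : F, u * x ^ 2 + A * x + ε ^ 2 ≠ 0 := by
    intro x hx
    apply hu
    refine ⟨2 * u * x + A, ?_⟩
    rw [hε2] at hAB
    linear_combination (-1 : F) * hAB - 4 * u * hx
  choose a b c d hfib using fun x : F =>
    oodd_fibre h2 x (u * x ^ 2 + A * x + ε ^ 2) (u * x + A) ε hε (he0 x) (by ring)
  obtain ⟨S, -, hScard⟩ := Finset.exists_subset_card_eq (s := (univ : Finset F)) (n := m)
    (by rw [Finset.card_univ]; exact hmq)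
  have main := masterOdd S (by rw [hScard]; exact hm)
    (fun z => (z 0) ^ 2 - (C (ε ^ 2) + X * (C u * X + C A)) * (z 1) ^ 2
        - (X * (z 2) ^ 2 - C (2 * ε) * (z 2) * (z 3) - (C u * X + C A) * (z 3) ^ 2))
    (by intro c z; ring)
    (fun t x => loc (sg F t) (a x) (b x) (c x) (d x))
    (fun _ _ => 1 / 2)
    (fun _ _ _ => one_div_ne_zero h2)
    (by
      intro x _ v v'
      obtain ⟨k1, k2, k3, k4⟩ := hfib x
      simp only [loc, det2, LinearMap.coe_mk, AddHom.coe_mk, sg, if_true, Bool.false_eq_true,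
        if_false]
      have hh : (2 : F) * (1 / 2) = 1 := by field_simp
      linear_combination (v 0 * v' 1 - v 1 * v' 0 + (a x * d x - b x * c x)
        * (v 2 * v' 3 - v 3 * v' 2)) * hh + (v 2 * v' 3 - v 3 * v' 2) * k1)
    (by
      intro t x _ z hz
      obtain ⟨k1, k2, k3, k4⟩ := hfib x
      simp only [loc, LinearMap.coe_mk, AddHom.coe_mk, Prod.mk_eq_zero] at hz
      obtain ⟨h0, h1⟩ := hz
      have hs := sg_sq F t
      have h0' : (z 0).eval x = - (sg F t * (a x * (z 2).eval x + b x * (z 3).eval x)) := by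
        linear_combination h0
      have h1' : (z 1).eval x = - (sg F t * (c x * (z 2).eval x + d x * (z 3).eval x)) := by
        linear_combination h1
      simp only [eval_sub, eval_add, eval_mul, eval_pow, eval_C, eval_X]
      rw [h0', h1']
      have key : (-(sg F t * (a x * (z 2).eval x + b x * (z 3).eval x))) ^ 2
          - (u * x ^ 2 + A * x + ε ^ 2)
            * (-(sg F t * (c x * (z 2).eval x + d x * (z 3).eval x))) ^ 2
          = x * (z 2).eval x ^ 2 - 2 * ε * (z 2).eval x * (z 3).eval x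
            - (u * x + A) * (z 3).eval x ^ 2 := by
        linear_combination ((a x * (z 2).eval x + b x * (z 3).eval x) ^ 2
            - (u * x ^ 2 + A * x + ε ^ 2)
              * (c x * (z 2).eval x + d x * (z 3).eval x) ^ 2) * hs
          + (z 2).eval x ^ 2 * k2 + 2 * (z 2).eval x * (z 3).eval x * k3
          + (z 3).eval x ^ 2 * k4
      linear_combination key)
    (by
      intro n z hz
      exact oodd_top u A ε hu n z hz _ rfl)
  rw [hScard] at main
  exact main

end Pool.Agent.H14.AM
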