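import Pool.Agent.H14.AM.Defs

/-!
Job AM-Product. Tensor products and change of alphabet.

PROOF. `prod`: take `ψ x = ψ₁ (fun i => (x i).1) * ψ₂ (fun i => (x i).2)`.  The configurations
`Fin n → α × β` are pairs of configurations (`Equiv.arrowProdEquivProdArrow`), `mix` is compatible
with the projections, the sum is the product of the two sums (`Finset.sum_mul_sum`,
`Fintype.sum_prod_type`), and `u = v` on `S` iff both projections agree on `S`.
`congr`: transport along `e : α ≃ β` (`ψ' x = ψ (fun i => e.symm (x i))`, reindex the sum by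
`Equiv.arrowCongr`/`Equiv.piCongrRight`).
-/

namespace Pool.Agent.H14.AM

open Finset

theorem product_mix_map {ι α β : Type} [DecidableEq ι] (f : α → β) (S : Finset ι) (u z : ι → α) :
    (fun i => f (mix S u z i)) = mix S (fun i => f (u i)) (fun i => f (z i)) := by
  funext i
  unfold mix
  split_ifs <;> rfl

theorem hasAMEx_prod {α β : Type} [Fintype α] [DecidableEq α] [Fintype β] [DecidableEq β] {n : ℕ}
    (h₁ : HasAMEx n α) (h₂ : HasAMEx n β) : HasAMEx n (α × β) := by
  obtain ⟨ψ₁, h₁⟩ := h₁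
  obtain ⟨ψ₂, h₂⟩ := h₂
  refine ⟨fun x => ψ₁ (fun i => (x i).1) * ψ₂ (fun i => (x i).2), ?_⟩
  intro S hS u v
  have e1 := h₁ S hS (fun i => (u i).1) (fun i => (v i).1)
  have e2 := h₂ S hS (fun i => (u i).2) (fun i => (v i).2)
  have hsum : (∑ z : Fin n → α × β,
      (ψ₁ (fun i => (mix S u z i).1) * ψ₂ (fun i => (mix S u z i).2)) *
        (starRingEnd ℂ) (ψ₁ (fun i => (mix S v z i).1) * ψ₂ (fun i => (mix S v z i).2))) =
      ∑ p : (Fin n → α) × (Fin n → β),
        (ψ₁ (mix S (fun i => (u i).1) p.1) * (starRingEnd ℂ) (ψ₁ (mix S (fun i => (v i).1) p.1))) *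
        (ψ₂ (mix S (fun i => (u i).2) p.2) *
          (starRingEnd ℂ) (ψ₂ (mix S (fun i => (v i).2) p.2))) := by
    refine Fintype.sum_equiv (Equiv.arrowProdEquivProdArrow (Fin n) (fun _ => α) (fun _ => β))
      _ _ ?_
    intro z
    rw [product_mix_map Prod.fst S u z, product_mix_map Prod.snd S u z,
      product_mix_map Prod.fst S v z, product_mix_map Prod.snd S v z, map_mul]
    simp only [Equiv.arrowProdEquivProdArrow, Equiv.coe_fn_mk]
    ring
  rw [hsum, Fintype.sum_prod_type]
  dsimp only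
  rw [← Finset.sum_mul_sum, e1, e2]
  by_cases ha : ∀ i ∈ S, (u i).1 = (v i).1
  · by_cases hb : ∀ i ∈ S, (u i).2 = (v i).2
    · rw [if_pos ha, if_pos hb, if_pos (fun i hi => Prod.ext (ha i hi) (hb i hi)), mul_one]
    · rw [if_pos ha, if_neg hb, mul_zero,
        if_neg (fun hc => hb (fun i hi => congrArg Prod.snd (hc i hi)))]
  · rw [if_neg ha, zero_mul, if_neg (fun hc => ha (fun i hi => congrArg Prod.fst (hc i hi)))]

theorem hasAMEx_congr {α β : Type} [Fintype α] [DecidableEq α] [Fintype β] [DecidableEq β] {n : ℕ}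
    (e : α ≃ β) (h : HasAMEx n α) : HasAMEx n β := by
  obtain ⟨ψ, h⟩ := h
  refine ⟨fun x => ψ (fun i => e.symm (x i)), ?_⟩
  intro S hS u v
  have e1 := h S hS (fun i => e.symm (u i)) (fun i => e.symm (v i))
  have hsum : (∑ z : Fin n → β, ψ (fun i => e.symm (mix S u z i)) *
        (starRingEnd ℂ) (ψ (fun i => e.symm (mix S v z i)))) =
      ∑ z : Fin n → α, ψ (mix S (fun i => e.symm (u i)) z) *
        (starRingEnd ℂ) (ψ (mix S (fun i => e.symm (v i)) z)) := by
    refine Fintype.sum_equiv (Equiv.arrowCongr (Equiv.refl (Fin n)) e.symm) _ _ ?_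
    intro z
    rw [product_mix_map e.symm S u z, product_mix_map e.symm S v z]
    rfl
  rw [hsum, e1]
  by_cases hc : ∀ i ∈ S, u i = v i
  · rw [if_pos hc, if_pos (fun i hi => congrArg e.symm (hc i hi))]
  · rw [if_neg hc, if_neg (fun h' => hc (fun i hi => e.symm.injective (h' i hi)))]

end Pool.Agent.H14.AM
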