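import Pool.Agent.H14.AM.Conv
import Pool.Agent.H14.AM.Product
import Pool.Agent.H14.AM.OOdd
import Pool.Agent.H14.AM.EOdd
import Pool.Agent.H14.AM.OEven
import Pool.Agent.H14.AM.EEven

/-!
Job AM-Final. Prime powers, then all `d` by products.

PROOF. `hasAMEx_field`: let `q = card F`, `2 ≤ n ≤ 2 q + 1` and, if `2 = 0` in `F`, `n ≠ 2 q`.
If `n` is odd, `n = 2 m + 1` with `1 ≤ m ≤ q` and `OOdd`/`EOdd` apply.  If `n = 2 k` is even and
`2 ≠ 0`: `k - 1 + 1 ≤ q`, `OEven` with `s = k - 1`.  If `2 = 0`: `k ≤ q - 1`, `EEven`.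
`hasAMEx_primePow`: `F = GaloisField p k`, `card = p^k`; `(2 : F) = 0` iff `p = 2`.
`hasAMEx_nat`: induction on `d` by `Nat.recOnPosPrimePosCoprime`; for a coprime product
`a * b` the factorization of `a * b` at a prime divisor of `a` is that of `a`
(`Nat.factorization_eq_of_coprime_left`), `Fin a × Fin b ≃ Fin (a * b)` (`finProdFinEquiv`).
-/

namespace Pool.Agent.H14.AM

open Finset

theorem hasAMEx_field {F : Type} [Field F] [Fintype F] [DecidableEq F] {n : ℕ} (hn : 2 ≤ n)
    (h : n ≤ 2 * Fintype.card F + 1) (h' : (2 : F) = 0 → n ≠ 2 * Fintype.card F) :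
    HasAMEx n F := by
  rcases Nat.even_or_odd' n with ⟨k, hk | hk⟩
  · subst hk
    by_cases h2 : (2 : F) = 0
    · have h3 := h' h2
      exact hasAMEx_even_char_even h2 k (by omega) (by omega)
    · have h3 := hasAMEx_odd_char_even h2 (k - 1) (by omega)
      have h4 : 2 * (k - 1) + 2 = 2 * k := by omega
      rw [h4] at h3
      exact h3
  · subst hk
    by_cases h2 : (2 : F) = 0
    · exact hasAMEx_even_char_odd h2 k (by omega) (by omega)
    · exact hasAMEx_odd_char_odd h2 k (by omega) (by omega)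

theorem hasAMEx_primePow {n p k : ℕ} (hp : p.Prime) (hk : 0 < k) (hn : 2 ≤ n)
    (h : n ≤ 2 * p ^ k + 1) (h' : p = 2 → n ≠ 2 * p ^ k) : HasAMEx n (Fin (p ^ k)) := by
  classical
  haveI : Fact p.Prime := ⟨hp⟩
  haveI : Fintype (GaloisField p k) := Fintype.ofFinite _
  have hcard : Fintype.card (GaloisField p k) = p ^ k := by
    rw [← Nat.card_eq_fintype_card]
    exact GaloisField.card p k hk.ne'
  have h2 : (2 : GaloisField p k) = 0 → p = 2 := by
    intro h2
    have h3 : ((2 : ℕ) : GaloisField p k) = 0 := by exact_mod_cast h2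
    rw [CharP.cast_eq_zero_iff (GaloisField p k) p] at h3
    exact (Nat.prime_dvd_prime_iff_eq hp Nat.prime_two).1 h3
  have h4 : HasAMEx n (GaloisField p k) := by
    apply hasAMEx_field hn
    · rw [hcard]; exact h
    · intro h5
      rw [hcard]
      exact h' (h2 h5)
  exact hasAMEx_congr (Fintype.equivFinOfCardEq hcard) h4

theorem hasAMEx_nat {n : ℕ} (hn : 2 ≤ n) (d : ℕ) (hd : 2 ≤ d)
    (h : ∀ p : ℕ, p.Prime → p ∣ d →
      n ≤ 2 * p ^ d.factorization p + 1 ∧ (p = 2 → n ≠ 2 * p ^ d.factorization p)) :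
    HasAMEx n (Fin d) := by
  induction d using Nat.recOnPosPrimePosCoprime with
  | zero => omega
  | one => omega
  | prime_pow p k hp hk =>
    have h1 := h p hp (dvd_pow_self p hk.ne')
    rw [hp.factorization_pow] at h1
    simp only [Finsupp.single_eq_same] at h1
    exact hasAMEx_primePow hp hk hn h1.1 h1.2
  | coprime a b ha hb hab iha ihb =>
    have h1 : HasAMEx n (Fin a) := by
      apply iha (by omega)
      intro p hp hpa
      have h2 := h p hp (dvd_mul_of_dvd_left hpa b)
      rw [Nat.factorization_eq_of_coprime_left hab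
        (Nat.mem_primeFactorsList (by omega) |>.2 ⟨hp, hpa⟩)] at h2
      exact h2
    have h3 : HasAMEx n (Fin b) := by
      apply ihb (by omega)
      intro p hp hpb
      have h2 := h p hp (dvd_mul_of_dvd_right hpb a)
      rw [Nat.factorization_eq_of_coprime_right hab
        (Nat.mem_primeFactorsList (by omega) |>.2 ⟨hp, hpb⟩)] at h2
      exact h2
    exact hasAMEx_congr finProdFinEquiv (hasAMEx_prod h1 h3)

theorem main (n d : ℕ) (hn : 2 ≤ n) (hd : 2 ≤ d)
    (h : ∀ p : ℕ, p.Prime → p ∣ d →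
      n ≤ 2 * p ^ d.factorization p + 1 ∧ (p = 2 → n ≠ 2 * p ^ d.factorization p)) :
    AME n d :=
  AME_of_hasAMEx (by omega) (hasAMEx_nat hn d hd h)

end Pool.Agent.H14.AM
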