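import Pool.Agent.H14.AM.Defs

/-!
Job AM-Graph. Graph states over a finite field.

PROOF. Let `q = |F|`, let `χ : AddChar F ℂ` be a nontrivial (primitive) additive character
(Mathlib: `AddChar.FiniteField.primitiveChar` or `AddChar.exists_apply_ne_zero`-like statements;
for `a ≠ 0` we have `∑ x, χ (a * x) = 0`, and `χ x * conj (χ x) = 1`, `conj (χ x) = χ (-x)`).
Put `Q x = ∑ i, ∑ j, if i < j then A i j * x i * x j else 0` and
`ψ x = ((q : ℝ) ^ (-(n : ℝ) / 2) : ℂ) * χ (Q x)` (or `(1 / √(q^n)) * χ (Q x)`).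
For `u` and `z` put `uS i = if i ∈ S then u i else 0`, `z' i = if i ∈ S then 0 else z i`; then
`mix S u z = uS + z'` and, by the symmetry of `A`,
`Q (uS + z') = Q uS + Q z' + ∑ j ∉ S, z j * ∑ i ∈ S, A j i * u i`.
So `ψ (mix S u z) * conj (ψ (mix S v z))
   = q^(-n) * χ (Q uS - Q vS) * χ (∑ j ∉ S, z j * (A w) j)`, `w = uS - vS` (supported in `S`).
If `(A w) j ≠ 0` for some `j ∉ S` then the sum over `z` vanishes (sum over the coordinate `z j`;
e.g. the map `z ↦ χ (∑ j ∉ S, z j * (A w) j)` is a nontrivial additive character of `ι → F`, use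
`AddChar.sum_eq_zero_of_ne_one` / `AddChar.sum_eq_ite`), and `w ≠ 0`, i.e. `u`, `v` differ on `S`.
Otherwise `hA` gives `w = 0`, so `u = v` on `S`, `Q uS = Q vS`, and the sum is `q^(-n) * q^n = 1`.
Conversely `u = v` on `S` gives `w = 0`.
-/

namespace Pool.Agent.H14.AM

open Finset

private noncomputable def Qf {F : Type} [Field F] {n : ℕ} (A : Fin n → Fin n → F)
    (x : Fin n → F) : F :=
  ∑ i, ∑ j, if i < j then A i j * x i * x j else 0

private lemma Qf_add {F : Type} [Field F] {n : ℕ} (A : Fin n → Fin n → F)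
    (hsymm : ∀ i j, A i j = A j i) (x y : Fin n → F) (hxy : ∀ i, x i * y i = 0) :
    Qf A (x + y) = Qf A x + Qf A y + ∑ j, y j * ∑ i, A j i * x i := by
  have h1 : Qf A (x + y) = Qf A x + Qf A y +
      ((∑ i, ∑ j, if i < j then A i j * x i * y j else 0) +
       (∑ i, ∑ j, if i < j then A i j * y i * x j else 0)) := by
    unfold Qf
    simp only [← Finset.sum_add_distrib]
    refine Finset.sum_congr rfl fun i _ => Finset.sum_congr rfl fun j _ => ?_
    split_ifs
    · simp only [Pi.add_apply]; ring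
    · simp
  rw [h1]
  congr 1
  rw [Finset.sum_comm, ← Finset.sum_add_distrib]
  refine Finset.sum_congr rfl fun a _ => ?_
  rw [Finset.mul_sum, ← Finset.sum_add_distrib]
  refine Finset.sum_congr rfl fun b _ => ?_
  rcases lt_trichotomy a b with h | h | h
  · rw [if_neg (not_lt.2 h.le), if_pos h]; ring
  · subst h
    have := hxy a
    simp only [lt_irrefl, if_false, add_zero]
    linear_combination (-A a a) * this
  · rw [if_pos h, if_neg (not_lt.2 h.le), hsymm b a]; ring

theorem graph_AMEx {F : Type} [Field F] [Fintype F] [DecidableEq F] {n : ℕ}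
    (A : Fin n → Fin n → F) (hsymm : ∀ i j, A i j = A j i)
    (hA : ∀ S : Finset (Fin n), S.card ≤ n / 2 → ∀ u : Fin n → F, (∀ i, i ∉ S → u i = 0) →
      (∀ i, i ∉ S → ∑ j, A i j * u j = 0) → u = 0) :
    HasAMEx n F := by
  classical
  obtain ⟨χ, hχ⟩ : ∃ χ : AddChar F ℂ, χ 1 ≠ 1 := AddChar.exists_apply_ne_zero.2 one_ne_zero
  set N : ℕ := Fintype.card (Fin n → F) with hN
  have hNpos : 0 < N := Fintype.card_pos
  have hNne : (N : ℂ) ≠ 0 := by exact_mod_cast hNpos.ne'
  set c : ℝ := (Real.sqrt N)⁻¹ with hc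
  have hcc : (c : ℂ) * (starRingEnd ℂ) (c : ℂ) = ((N : ℂ))⁻¹ := by
    rw [Complex.conj_ofReal, ← Complex.ofReal_mul]
    have : c * c = (N : ℝ)⁻¹ := by
      rw [hc, ← mul_inv, Real.mul_self_sqrt (Nat.cast_nonneg _)]
    rw [this]
    push_cast
    rfl
  refine ⟨fun x => (c : ℂ) * χ (Qf A x), ?_⟩
  intro S hS u v
  rw [Fintype.card_fin] at hS
  set uS : Fin n → F := fun i => if i ∈ S then u i else 0 with huS
  set vS : Fin n → F := fun i => if i ∈ S then v i else 0 with hvS
  let zc : (Fin n → F) → Fin n → F := fun z i => if i ∈ S then 0 else z i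
  have hmix : ∀ (u z : Fin n → F), mix S u z = (fun i => if i ∈ S then u i else 0) + zc z := by
    intro u z
    funext i
    simp only [mix, Pi.add_apply, zc]
    split_ifs <;> simp
  have hdisj : ∀ (u z : Fin n → F) (i : Fin n),
      (fun i => if i ∈ S then u i else 0 : Fin n → F) i * zc z i = 0 := by
    intro u z i
    simp only [zc]
    split_ifs <;> simp
  have hzadd : ∀ z z' : Fin n → F, zc (z + z') = zc z + zc z' := by
    intro z z'
    funext i
    simp only [zc, Pi.add_apply]
    split_ifs <;> simp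
  have hzzero : zc 0 = 0 := by
    funext i
    simp [zc]
  let Φ : AddChar (Fin n → F) ℂ :=
    { toFun := fun z => χ (∑ j, zc z j * ∑ i, A j i * (uS i - vS i))
      map_zero_eq_one' := by
        rw [hzzero]; simp
      map_add_eq_mul' := by
        intro z z'
        rw [← AddChar.map_add_eq_mul, ← Finset.sum_add_distrib, hzadd]
        congr 1
        refine Finset.sum_congr rfl fun j _ => ?_
        rw [Pi.add_apply, add_mul] }
  have hΦ : ∀ z, Φ z = χ (∑ j, zc z j * ∑ i, A j i * (uS i - vS i)) := fun z => rfl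
  have hterm : ∀ z : Fin n → F, ((c : ℂ) * χ (Qf A (mix S u z))) *
      (starRingEnd ℂ) ((c : ℂ) * χ (Qf A (mix S v z)))
      = ((N : ℂ))⁻¹ * χ (Qf A uS - Qf A vS) * Φ z := by
    intro z
    rw [map_mul, ← AddChar.map_neg_eq_conj, mul_mul_mul_comm, hcc, ← AddChar.map_add_eq_mul,
      mul_assoc, hΦ, ← AddChar.map_add_eq_mul, hmix, hmix, Qf_add A hsymm _ _ (hdisj u z),
      Qf_add A hsymm _ _ (hdisj v z)]
    congr 2
    have : ∑ j, zc z j * ∑ i, A j i * (uS i - vS i)
        = ∑ j, zc z j * ∑ i, A j i * uS i - ∑ j, zc z j * ∑ i, A j i * vS i := by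
      rw [← Finset.sum_sub_distrib]
      refine Finset.sum_congr rfl fun j _ => ?_
      rw [← mul_sub, ← Finset.sum_sub_distrib]
      congr 1
      refine Finset.sum_congr rfl fun i _ => ?_
      ring
    rw [this]
    ring
  rw [Finset.sum_congr rfl fun z _ => hterm z, ← Finset.mul_sum, AddChar.sum_eq_ite]
  by_cases h : ∀ i ∈ S, u i = v i
  · have huv : uS = vS := by
      funext i
      simp only [huS, hvS]
      split_ifs with hi
      · exact h i hi
      · rfl
    have hΦ0 : Φ = 0 := by
      ext z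
      rw [hΦ]
      simp [huv]
    rw [if_pos hΦ0, if_pos h, huv, sub_self, AddChar.map_zero_eq_one, mul_one]
    exact inv_mul_cancel₀ hNne
  · have hΦ0 : Φ ≠ 0 := by
      intro h0
      apply h
      have hall : ∀ j, j ∉ S → ∑ i, A j i * (uS i - vS i) = 0 := by
        intro j hj
        by_contra hne
        have h1 : Φ (Pi.single j (∑ i, A j i * (uS i - vS i))⁻¹) = 1 := by
          rw [h0]; simp
        rw [hΦ, Finset.sum_eq_single j] at h1
        · apply hχ
          have h2 : zc (Pi.single j (∑ i, A j i * (uS i - vS i))⁻¹) j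
              = (∑ i, A j i * (uS i - vS i))⁻¹ := by
            simp [zc, hj]
          rw [h2, inv_mul_cancel₀ hne] at h1
          exact h1
        · intro b _ hb
          have : zc (Pi.single j (∑ i, A j i * (uS i - vS i))⁻¹) b = 0 := by
            simp [zc, hb]
          rw [this, zero_mul]
        · intro hj'
          exact absurd (Finset.mem_univ j) hj'
      have hw := hA S hS (fun i => uS i - vS i) (by
        intro i hi
        simp [huS, hvS, hi]) hall
      intro i hi
      have := congrFun hw i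
      simp only [huS, hvS, hi, if_true, Pi.zero_apply] at this
      exact sub_eq_zero.1 this
    rw [if_neg hΦ0, if_neg h, mul_zero]

end Pool.Agent.H14.AM
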