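import Pool.Agent.H14.AM.Defs

/-!
Job AM-Poly. Polynomials with a given coefficient vector; the multi-root divisibility bound; the
residue (Lagrange) relation.

PROOFS.
* `coeff_poly`, `degree_poly_lt`, `poly_eq_zero`: immediate from `poly c = ∑ i, monomial i (c i)`.
* `sum_le_natDegree`: the polynomials `(X - C x)^(e x)`, `x ∈ S`, are pairwise coprime, so
  `∏ x ∈ S, (X - C x)^(e x) ∣ N` (`Finset.prod_dvd_of_coprime`), and the product has natDegree
  `∑ x ∈ S, e x` (`Polynomial.natDegree_prod_of_monic`).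
* `sum_nodal`: `T = Lagrange.interpolate S id (fun x => T.eval x)` (`Lagrange.eq_interpolate`), i.e.
  `T = ∑ x ∈ S, C (T.eval x) * Lagrange.basis S id x`; the coefficient of `X^(card S - 1)` of
  `Lagrange.basis S id x` is `∏ y ∈ S.erase x, (x - y)⁻¹` (a product of `card S - 1` polynomials
  `C (x - y)⁻¹ * (X - C y)` of degree `≤ 1`: use `Polynomial.coeff_prod_of_natDegree_le` or
  `leadingCoeff_basis` / `Lagrange.basis_eq_prod_sub_inv_mul_nodal_div`).
-/

namespace Pool.Agent.H14.AM

open Finset Polynomial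

/-- The polynomial with coefficient vector `c`. -/
noncomputable def poly {F : Type} [Field F] {a : ℕ} (c : Fin a → F) : F[X] :=
  ∑ i : Fin a, monomial (i : ℕ) (c i)

theorem coeff_poly {F : Type} [Field F] {a : ℕ} (c : Fin a → F) (k : ℕ) :
    (poly c).coeff k = if h : k < a then c ⟨k, h⟩ else 0 := by
  unfold poly
  rw [finsetSum_coeff]
  simp_rw [coeff_monomial]
  split_ifs with h
  · rw [Finset.sum_eq_single ⟨k, h⟩]
    · simp
    · intro b _ hb
      rw [if_neg]
      intro hbk
      exact hb (Fin.ext hbk)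
    · intro hh
      exact absurd (Finset.mem_univ _) hh
  · refine Finset.sum_eq_zero fun i _ => ?_
    rw [if_neg]
    intro hik
    exact h (hik ▸ i.2)

theorem degree_poly_lt {F : Type} [Field F] {a : ℕ} (c : Fin a → F) :
    (poly c).degree < a := by
  rw [degree_lt_iff_coeff_zero]
  intro m hm
  rw [coeff_poly, dif_neg (not_lt.2 hm)]

theorem poly_eq_zero {F : Type} [Field F] {a : ℕ} (c : Fin a → F) : poly c = 0 ↔ c = 0 := by
  constructor
  · intro h
    funext i
    have h1 := coeff_poly c i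
    rw [h, coeff_zero, dif_pos i.2] at h1
    exact h1.symm
  · rintro rfl
    unfold poly
    simp

theorem poly_add {F : Type} [Field F] {a : ℕ} (c c' : Fin a → F) :
    poly (c + c') = poly c + poly c' := by
  unfold poly
  rw [← Finset.sum_add_distrib]
  refine Finset.sum_congr rfl fun i _ => ?_
  rw [Pi.add_apply, map_add]

theorem poly_smul {F : Type} [Field F] {a : ℕ} (r : F) (c : Fin a → F) :
    poly (r • c) = C r * poly c := by
  unfold poly
  rw [Finset.mul_sum]
  refine Finset.sum_congr rfl fun i _ => ?_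
  rw [Pi.smul_apply, smul_eq_mul, C_mul_monomial]

theorem sum_le_natDegree {F : Type} [Field F] [DecidableEq F] (S : Finset F) (N : F[X])
    (hN : N ≠ 0) (e : F → ℕ) (he : ∀ x ∈ S, (X - C x) ^ (e x) ∣ N) :
    ∑ x ∈ S, e x ≤ N.natDegree := by
  have h1 : ∏ x ∈ S, (X - C x) ^ (e x) ∣ N := by
    refine Finset.prod_dvd_of_coprime ?_ he
    intro x _ y _ hxy
    exact (isCoprime_X_sub_C_of_isUnit_sub (sub_ne_zero_of_ne hxy).isUnit).pow
  have h2 := natDegree_le_of_dvd h1 hN
  rw [natDegree_prod_of_monic _ _ (fun x _ => (monic_X_sub_C x).pow _)] at h2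
  refine le_trans (le_of_eq ?_) h2
  refine Finset.sum_congr rfl fun x _ => ?_
  rw [natDegree_pow, natDegree_X_sub_C, mul_one]

theorem sum_nodal {F : Type} [Field F] [DecidableEq F] (S : Finset F) (hS : S.Nonempty) (T : F[X])
    (hT : T.degree < S.card) :
    ∑ x ∈ S, (∏ y ∈ S.erase x, (x - y)⁻¹) * T.eval x = T.coeff (S.card - 1) := by
  rw [Lagrange.coeff_eq_sum (s := S) (v := fun x : F => x) (Function.injective_id.injOn) hT]
  refine Finset.sum_congr rfl fun x _ => ?_
  rw [Finset.prod_inv_distrib, mul_comm, div_eq_mul_inv]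

theorem nodal_ne_zero {F : Type} [Field F] [DecidableEq F] (S : Finset F) (x : F) :
    ∏ y ∈ S.erase x, (x - y)⁻¹ ≠ 0 := by
  refine Finset.prod_ne_zero_iff.2 fun y hy => ?_
  exact inv_ne_zero (sub_ne_zero_of_ne (Finset.ne_of_mem_erase hy).symm)

end Pool.Agent.H14.AM
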