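import Pool.Agent.H14.AM.Transversal
import Pool.Agent.H14.AM.Poly

/-!
Job AM-Master. The index plumbing common to the four families of codes.

PROOF. Apply `hasAMEx_of_code` with `ι = ({x // x ∈ S} × Bool) ⊕ E`,
`V = (i : Fin 4) → Fin (a i) → F` (`finrank = ∑ i, a i`, `Module.finrank_pi_fintype`,
`Module.finrank_fin_fun`), the linear maps `c ↦ f b x (fun i => (poly (c i)).eval x)` (linear by
`poly_add`, `poly_smul`) with weights `ν x * w b x`, and `g k` with weights `ω k`.
Isotropy: sum of `hS x` (with `v i = (poly (c i)).eval x`) times `ν x`, and `hrel`.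
Zeros of `c ≠ 0`: let `e x = card {b | f b x (evals of c at x) = 0}` for `x ∈ S`.
If `e x = 1` then `hN` gives `(Q (P c)).eval x = 0`, so `X - C x ∣ Q (P c)`.
If `e x = 2` then by `hS x` with `v = evals of c`, the right hand side is `0` for all `v'`; taking
`v' = ` the four unit vectors and `(κ.eval x) ≠ 0` gives `v = 0`, so every `poly (c i)` is
`(X - C x) * z i`, and `hQ` gives `(X - C x)^2 ∣ Q (P c)`.
The number of zero coordinates is `∑ x ∈ S, e x + card {k | g k c = 0}`; use `hcount`.
-/

namespace Pool.Agent.H14.AM

open Finset Polynomial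

/-- The alternating form on 4-vectors of polynomials. -/
noncomputable def Tform {F : Type} [Field F] (κ : F[X]) (z z' : Fin 4 → F[X]) : F[X] :=
  (z 0 * z' 1 - z 1 * z' 0) + κ * (z 2 * z' 3 - z 3 * z' 2)

/-- The 4-vector of polynomials with coefficient vectors `c`. -/
noncomputable def P4 {F : Type} [Field F] {a : Fin 4 → ℕ} (c : (i : Fin 4) → Fin (a i) → F) :
    Fin 4 → F[X] := fun i => poly (c i)

/-- The evaluation map. -/
noncomputable def evl {F : Type} [Field F] (a : Fin 4 → ℕ) (x : F) :
    ((i : Fin 4) → Fin (a i) → F) →ₗ[F] (Fin 4 → F) where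
  toFun c := fun i => (poly (c i)).eval x
  map_add' c c' := by
    funext i
    simp [poly_add]
  map_smul' r c := by
    funext i
    simp [poly_smul]

theorem det2_zero_left {F : Type} [Field F] (y : F × F) : det2 0 y = 0 := by
  simp [det2]

theorem master {F : Type} [Field F] [Fintype F] [DecidableEq F]
    (S : Finset F) (a : Fin 4 → ℕ) (κ : F[X]) (Q : (Fin 4 → F[X]) → F[X])
    (hQ : ∀ (c : F[X]) (z : Fin 4 → F[X]), Q (fun i => c * z i) = c ^ 2 * Q z)
    (f : Bool → F → (Fin 4 → F) →ₗ[F] F × F)
    (w : Bool → F → F) (hw : ∀ b, ∀ x ∈ S, w b x ≠ 0)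
    (hκ : ∀ x ∈ S, κ.eval x ≠ 0)
    (hS : ∀ x ∈ S, ∀ v v' : Fin 4 → F,
      w true x * det2 (f true x v) (f true x v') + w false x * det2 (f false x v) (f false x v')
        = (v 0 * v' 1 - v 1 * v' 0) + κ.eval x * (v 2 * v' 3 - v 3 * v' 2))
    (hN : ∀ b, ∀ x ∈ S, ∀ z : Fin 4 → F[X], f b x (fun i => (z i).eval x) = 0 →
      (Q z).eval x = 0)
    {E : Type} [Fintype E] [DecidableEq E]
    (g : E → ((i : Fin 4) → Fin (a i) → F) →ₗ[F] F × F) (ω : E → F) (hω : ∀ k, ω k ≠ 0)
    (ν : F → F) (hν : ∀ x ∈ S, ν x ≠ 0)
    (hrel : ∀ c c' : (i : Fin 4) → Fin (a i) → F,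
      ∑ x ∈ S, ν x * (Tform κ (P4 c) (P4 c')).eval x + ∑ k, ω k * det2 (g k c) (g k c') = 0)
    (hcount : ∀ c : (i : Fin 4) → Fin (a i) → F, c ≠ 0 → ∀ e : F → ℕ,
      (∀ x ∈ S, (X - C x) ^ (e x) ∣ Q (P4 c)) →
      2 * (∑ x ∈ S, e x + (univ.filter (fun k => g k c = 0)).card) < 2 * S.card + Fintype.card E)
    (hdim : ∑ i, a i = 2 * S.card + Fintype.card E) :
    HasAMEx (2 * S.card + Fintype.card E) F := by
  classical
  have hcard : Fintype.card (({x // x ∈ S} × Bool) ⊕ E) = 2 * S.card + Fintype.card E := by
    simp [Fintype.card_sum, Fintype.card_prod, mul_comm]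
  rw [← hcard]
  refine hasAMEx_of_code (V := (i : Fin 4) → Fin (a i) → F)
    (Sum.elim (fun p : {x // x ∈ S} × Bool => (f p.2 p.1.1).comp (evl a p.1.1)) g)
    (Sum.elim (fun p : {x // x ∈ S} × Bool => ν p.1.1 * w p.2 p.1.1) ω) ?_ ?_ ?_ ?_
  · rintro (⟨⟨x, hx⟩, b⟩ | k)
    · exact mul_ne_zero (hν x hx) (hw b x hx)
    · exact hω k
  · rw [hcard, ← hdim, Module.finrank_pi_fintype]
    simp
  · intro c c'
    rw [Fintype.sum_sum_type, Fintype.sum_prod_type]
    simp only [Sum.elim_inl, Sum.elim_inr, Fintype.sum_bool, LinearMap.comp_apply]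
    rw [← hrel c c']
    congr 1
    rw [← Finset.sum_coe_sort S (fun x => ν x * (Tform κ (P4 c) (P4 c')).eval x)]
    refine Finset.sum_congr rfl ?_
    rintro ⟨x, hx⟩ -
    have h := hS x hx (evl a x c) (evl a x c')
    simp only [mul_assoc]
    rw [← mul_add, h]
    simp [Tform, P4, evl]
  · intro c hc
    rw [hcard]
    set e : F → ℕ := fun x => ∑ b : Bool, if f b x (evl a x c) = 0 then 1 else 0 with he
    have hev : ∀ x ∈ S, (X - C x) ^ (e x) ∣ Q (P4 c) := by
      intro x hx
      by_cases ht : f true x (evl a x c) = 0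
      · by_cases hf : f false x (evl a x c) = 0
        · have hex : e x = 2 := by
            rw [he]; simp only [Fintype.sum_bool]; rw [if_pos ht, if_pos hf]
          rw [hex]
          have hv : evl a x c = 0 := by
            have h := fun v' => hS x hx (evl a x c) v'
            simp only [ht, hf, det2_zero_left, mul_zero, add_zero] at h
            have h0 := h (Pi.single 0 1)
            have h1 := h (Pi.single 1 1)
            have h2 := h (Pi.single 2 1)
            have h3 := h (Pi.single 3 1)
            simp at h0 h1 h2 h3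
            have hk := hκ x hx
            have h2' : evl a x c 3 = 0 := by
              rcases h2 with h2 | h2
              · exact absurd h2 hk
              · exact h2
            have h3' : evl a x c 2 = 0 := by
              rcases h3 with h3 | h3
              · exact absurd h3 hk
              · exact h3
            funext i
            fin_cases i
            · exact h1.symm
            · exact h0
            · exact h3'
            · exact h2'
          have hdiv : ∀ i, (X - C x) ∣ P4 c i := by
            intro i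
            rw [Polynomial.dvd_iff_isRoot]
            exact congrFun hv i
          choose z hz using hdiv
          have : P4 c = fun i => (X - C x) * z i := funext hz
          rw [this, hQ]
          exact dvd_mul_right _ _
        · have hex : e x = 1 := by
            rw [he]; simp only [Fintype.sum_bool]; rw [if_pos ht, if_neg hf]
          rw [hex, pow_one, Polynomial.dvd_iff_isRoot]
          exact hN true x hx (P4 c) ht
      · by_cases hf : f false x (evl a x c) = 0
        · have hex : e x = 1 := by
            rw [he]; simp only [Fintype.sum_bool]; rw [if_neg ht, if_pos hf]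
          rw [hex, pow_one, Polynomial.dvd_iff_isRoot]
          exact hN false x hx (P4 c) hf
        · have hex : e x = 0 := by
            rw [he]; simp only [Fintype.sum_bool]; rw [if_neg ht, if_neg hf]
          rw [hex, pow_zero]
          exact one_dvd _
    have hmain := hcount c hc e hev
    refine lt_of_eq_of_lt ?_ hmain
    congr 1
    rw [Finset.card_filter, Fintype.sum_sum_type, Fintype.sum_prod_type, Finset.card_filter]
    simp only [Sum.elim_inl, Sum.elim_inr, LinearMap.comp_apply]
    congr 1
    rw [← Finset.sum_coe_sort S e]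
    refine Finset.sum_congr (by ext y; simp) (fun x _ => ?_)
    rw [he]
    refine Finset.sum_congr rfl (fun b _ => ?_)
    split_ifs <;> rfl

end Pool.Agent.H14.AM
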