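import Pool.Agent.H14.AM.Master

/-!
Job AM-OddCommon. The common part of the two families with an odd number `2 m + 1` of parties
(`m = card S` evaluation points).

PROOF. Apply `master` with `κ = 1`, `E = Unit`, `ω = -1`, `ν x = ∏ y ∈ S.erase x, (x - y)⁻¹`,
`a = ![m / 2 + 1, m / 2, (m + 1) / 2, (m + 1) / 2]` (sum `2 m + 1`), `g c = top m (P4 c)` (linear).
* relation: `T = Tform 1 z z'` has `degree < m` (as `natDegree ≤ m - 1`: for `m = 2k` the products
  `z0 z1'` have degree `≤ k + (k-1)`, `z2 z3'` degree `≤ 2(k-1)`; for `m = 2k+1`: `z0 z1'` degree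
  `≤ k + (k - 1)` (zero if `k = 0`), `z2 z3'` degree `≤ 2k`), so `sum_nodal` gives
  `∑ ν x * T.eval x = T.coeff (m - 1) = det2 (top m z) (top m z')`
  (`Polynomial.coeff_mul_add_eq_of_natDegree_le`).
* `bd_pred`: if `Bd m z`, `1 ≤ m` and `top m z = 0` then `Bd (m - 1) z` (for `m = 2k` the bounds
  `(k+1, k, k, k)` become `(k, k-1, k, k)`; for `m = 2k+1` the bounds `(k+1, k, k+1, k+1)` become
  `(k+1, k, k, k)`).
* `Q_ne_zero`: induction on `m`: if `Q z = 0` then its `m`-th coefficient is `0`, so by `H`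
  `top m z = 0`; if `m = 0` this gives `z = 0`, otherwise `bd_pred` and induction.
* count: `c ≠ 0`, so `Q (P4 c) ≠ 0` and `∑ e ≤ natDegree (Q (P4 c))` (`sum_le_natDegree`), which is
  `≤ m`, and `≤ m - 1` if `top = 0` (then `Bd (m-1)` holds, use `H (m-1)`). So the total number is
  `≤ m` and `2 m < 2 m + 1`.
-/

namespace Pool.Agent.H14.AM

open Finset Polynomial

/-- Degree bounds of weight `m`. -/
def Bd {F : Type} [Field F] (m : ℕ) (z : Fin 4 → F[X]) : Prop :=
  (z 0).degree < ((m / 2 + 1 : ℕ) : WithBot ℕ) ∧ (z 1).degree < ((m / 2 : ℕ) : WithBot ℕ) ∧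
  (z 2).degree < (((m + 1) / 2 : ℕ) : WithBot ℕ) ∧ (z 3).degree < (((m + 1) / 2 : ℕ) : WithBot ℕ)

/-- The top coefficients. -/
noncomputable def top {F : Type} [Field F] (m : ℕ) (z : Fin 4 → F[X]) : F × F :=
  if Even m then ((z 0).coeff (m / 2), (z 1).coeff (m / 2 - 1))
  else ((z 2).coeff (m / 2), (z 3).coeff (m / 2))

private theorem degree_lt_of_succ {F : Type} [Field F] {p : F[X]} {n : ℕ}
    (h : p.degree < ((n + 1 : ℕ) : WithBot ℕ)) (hc : p.coeff n = 0) :
    p.degree < ((n : ℕ) : WithBot ℕ) := by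
  rw [Polynomial.degree_lt_iff_coeff_zero] at h ⊢
  intro k hk
  rcases Nat.lt_or_ge n k with h1 | h1
  · exact h k h1
  · have : k = n := le_antisymm h1 hk
    rw [this, hc]

private theorem coeff_mul_zero {F : Type} [Field F] {p q : F[X]} {a b n : ℕ}
    (hp : p.degree < (a : WithBot ℕ)) (hq : q.degree < (b : WithBot ℕ)) (hn : a + b ≤ n + 1) :
    (p * q).coeff n = 0 := by
  rw [Polynomial.degree_lt_iff_coeff_zero] at hp hq
  rw [Polynomial.coeff_mul]
  apply Finset.sum_eq_zero
  intro ij hij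
  have hij' : ij.1 + ij.2 = n := by simpa using hij
  rcases Nat.lt_or_ge ij.1 a with h1 | h1
  · have h2 : b ≤ ij.2 := by omega
    rw [hq _ h2, mul_zero]
  · rw [hp _ h1, zero_mul]

private theorem coeff_mul_top {F : Type} [Field F] {p q : F[X]} {a b : ℕ}
    (hp : p.degree < ((a + 1 : ℕ) : WithBot ℕ)) (hq : q.degree < ((b + 1 : ℕ) : WithBot ℕ)) :
    (p * q).coeff (a + b) = p.coeff a * q.coeff b := by
  apply Polynomial.coeff_mul_add_eq_of_natDegree_le
  · rw [Polynomial.natDegree_le_iff_coeff_eq_zero]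
    rw [Polynomial.degree_lt_iff_coeff_zero] at hp
    intro N hN
    exact hp N hN
  · rw [Polynomial.natDegree_le_iff_coeff_eq_zero]
    rw [Polynomial.degree_lt_iff_coeff_zero] at hq
    intro N hN
    exact hq N hN

theorem bd_pred {F : Type} [Field F] {m : ℕ} (hm : 1 ≤ m) {z : Fin 4 → F[X]} (h : Bd m z)
    (ht : top m z = 0) : Bd (m - 1) z := by
  obtain ⟨h0, h1, h2, h3⟩ := h
  rcases Nat.even_or_odd' m with ⟨k, rfl | rfl⟩
  · have hk : 1 ≤ k := by omega
    obtain ⟨j, rfl⟩ : ∃ j, k = j + 1 := ⟨k - 1, by omega⟩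
    have e1 : 2 * (j + 1) / 2 = j + 1 := by omega
    have e2 : (2 * (j + 1) + 1) / 2 = j + 1 := by omega
    have e3 : (2 * (j + 1) - 1) / 2 = j := by omega
    have e4 : (2 * (j + 1) - 1 + 1) / 2 = j + 1 := by omega
    have hev : Even (2 * (j + 1)) := even_two_mul _
    simp only [top, hev, if_true, e1] at ht
    rw [e1] at h0 h1
    rw [e2] at h2 h3
    rw [Prod.mk_eq_zero] at ht
    unfold Bd
    rw [e3, e4]
    refine ⟨degree_lt_of_succ h0 ht.1, degree_lt_of_succ h1 ?_, h2, h3⟩
    have := ht.2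
    rwa [Nat.add_sub_cancel] at this
  · have e1 : (2 * k + 1) / 2 = k := by omega
    have e2 : (2 * k + 1 + 1) / 2 = k + 1 := by omega
    have e3 : (2 * k + 1 - 1) / 2 = k := by omega
    have e4 : (2 * k + 1 - 1 + 1) / 2 = k := by omega
    have hev : ¬ Even (2 * k + 1) := by
      rw [Nat.not_even_iff_odd]
      exact odd_two_mul_add_one k
    simp only [top, hev, if_false, e1] at ht
    rw [e1] at h0 h1
    rw [e2] at h2 h3
    rw [Prod.mk_eq_zero] at ht
    unfold Bd
    rw [e3, e4]
    exact ⟨h0, h1, degree_lt_of_succ h2 ht.1, degree_lt_of_succ h3 ht.2⟩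

theorem bd_zero {F : Type} [Field F] {z : Fin 4 → F[X]} (h : Bd 0 z)
    (ht : top 0 z = 0) : z = 0 := by
  obtain ⟨h0, h1, h2, h3⟩ := h
  have key : ∀ p : F[X], p.degree < ((0 : ℕ) : WithBot ℕ) → p = 0 := by
    intro p hp
    rw [Polynomial.degree_lt_iff_coeff_zero] at hp
    ext k
    rw [hp k (Nat.zero_le k), Polynomial.coeff_zero]
  have hev : Even 0 := Even.zero
  simp only [top, hev, if_true, Nat.zero_div] at ht
  rw [Prod.mk_eq_zero] at ht
  have e1 : (0 + 1) / 2 = 0 := by norm_num
  have e0 : 0 / 2 + 1 = 0 + 1 := by norm_num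
  rw [e1] at h2 h3
  rw [Nat.zero_div] at h0 h1
  have z0 := key _ (degree_lt_of_succ h0 ht.1)
  have z1 := key _ h1
  have z2 := key _ h2
  have z3 := key _ h3
  funext i
  fin_cases i
  · exact z0
  · exact z1
  · exact z2
  · exact z3

theorem Q_ne_zero {F : Type} [Field F] (Q : (Fin 4 → F[X]) → F[X])
    (H : ∀ (m : ℕ) (z : Fin 4 → F[X]), Bd m z →
      (Q z).natDegree ≤ m ∧ ((Q z).coeff m = 0 → top m z = 0))
    (m : ℕ) (z : Fin 4 → F[X]) (hz : Bd m z) (h0 : z ≠ 0) : Q z ≠ 0 := by
  induction m with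
  | zero =>
    intro hQ
    apply h0
    apply bd_zero hz
    apply (H 0 z hz).2
    rw [hQ, Polynomial.coeff_zero]
  | succ m ih =>
    intro hQ
    have ht : top (m + 1) z = 0 := by
      apply (H (m + 1) z hz).2
      rw [hQ, Polynomial.coeff_zero]
    have hb : Bd m z := bd_pred (Nat.succ_le_succ (Nat.zero_le m)) hz ht
    exact ih hb hQ

theorem top_relation {F : Type} [Field F] [DecidableEq F] (S : Finset F) (hS : 1 ≤ S.card)
    (z z' : Fin 4 → F[X]) (hz : Bd S.card z) (hz' : Bd S.card z') :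
    ∑ x ∈ S, (∏ y ∈ S.erase x, (x - y)⁻¹) * (Tform 1 z z').eval x
      = det2 (top S.card z) (top S.card z') := by
  have hne : S.Nonempty := Finset.card_pos.mp (by omega)
  generalize hm : S.card = m at *
  obtain ⟨h0, h1, h2, h3⟩ := hz
  obtain ⟨h0', h1', h2', h3'⟩ := hz'
  have hdeg : (Tform 1 z z').degree < ((m : ℕ) : WithBot ℕ) := by
    rw [Polynomial.degree_lt_iff_coeff_zero]
    intro n hn
    unfold Tform
    rw [one_mul, Polynomial.coeff_add, Polynomial.coeff_sub, Polynomial.coeff_sub]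
    rw [coeff_mul_zero h0 h1' (by omega), coeff_mul_zero h1 h0' (by omega),
      coeff_mul_zero h2 h3' (by omega), coeff_mul_zero h3 h2' (by omega)]
    ring
  rw [sum_nodal S hne _ (by rw [hm]; exact hdeg), hm]
  unfold Tform
  rw [one_mul, Polynomial.coeff_add, Polynomial.coeff_sub, Polynomial.coeff_sub]
  rcases Nat.even_or_odd' m with ⟨k, rfl | rfl⟩
  · have hk : 1 ≤ k := by omega
    obtain ⟨j, rfl⟩ : ∃ j, k = j + 1 := ⟨k - 1, by omega⟩
    have e1 : 2 * (j + 1) / 2 = j + 1 := by omega
    have e2 : (2 * (j + 1) + 1) / 2 = j + 1 := by omega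
    have hev : Even (2 * (j + 1)) := even_two_mul _
    rw [coeff_mul_zero h2 h3' (by omega), coeff_mul_zero h3 h2' (by omega)]
    rw [e1] at h0 h1 h0' h1'
    have e3 : 2 * (j + 1) - 1 = (j + 1) + j := by omega
    have e4 : 2 * (j + 1) - 1 = j + (j + 1) := by omega
    have c1 : (z 0 * z' 1).coeff (2 * (j + 1) - 1) = (z 0).coeff (j + 1) * (z' 1).coeff j := by
      rw [e3]; exact coeff_mul_top h0 h1'
    have c2 : (z 1 * z' 0).coeff (2 * (j + 1) - 1) = (z 1).coeff j * (z' 0).coeff (j + 1) := by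
      rw [e4]; exact coeff_mul_top h1 h0'
    rw [c1, c2]
    simp only [det2, top, hev, if_true, e1, Nat.add_sub_cancel]
    ring
  · have e1 : (2 * k + 1) / 2 = k := by omega
    have e2 : (2 * k + 1 + 1) / 2 = k + 1 := by omega
    have hev : ¬ Even (2 * k + 1) := by
      rw [Nat.not_even_iff_odd]
      exact odd_two_mul_add_one k
    rw [coeff_mul_zero h0 h1' (by omega), coeff_mul_zero h1 h0' (by omega)]
    rw [e2] at h2 h3 h2' h3'
    have e3 : 2 * k + 1 - 1 = k + k := by omega
    have c1 : (z 2 * z' 3).coeff (2 * k + 1 - 1) = (z 2).coeff k * (z' 3).coeff k := by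
      rw [e3]; exact coeff_mul_top h2 h3'
    have c2 : (z 3 * z' 2).coeff (2 * k + 1 - 1) = (z 3).coeff k * (z' 2).coeff k := by
      rw [e3]; exact coeff_mul_top h3 h2'
    rw [c1, c2]
    simp only [det2, top, hev, if_false, e1]
    ring

private theorem top_add {F : Type} [Field F] (m : ℕ) (z z' : Fin 4 → F[X]) :
    top m (fun i => z i + z' i) = top m z + top m z' := by
  unfold top
  split_ifs
  · simp only [Polynomial.coeff_add, Prod.mk_add_mk]
  · simp only [Polynomial.coeff_add, Prod.mk_add_mk]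

private theorem top_smul {F : Type} [Field F] (m : ℕ) (r : F) (z : Fin 4 → F[X]) :
    top m (fun i => C r * z i) = r • top m z := by
  unfold top
  split_ifs
  · simp only [Polynomial.coeff_C_mul, Prod.smul_mk, smul_eq_mul]
  · simp only [Polynomial.coeff_C_mul, Prod.smul_mk, smul_eq_mul]

/-- The dimensions of the four coefficient vectors. -/
private def dims (m : ℕ) : Fin 4 → ℕ := ![m / 2 + 1, m / 2, (m + 1) / 2, (m + 1) / 2]

private theorem P4_bd {F : Type} [Field F] (m : ℕ) (c : (i : Fin 4) → Fin (dims m i) → F) :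
    Bd m (P4 c) :=
  ⟨degree_poly_lt (c 0), degree_poly_lt (c 1), degree_poly_lt (c 2), degree_poly_lt (c 3)⟩

private noncomputable def topMap {F : Type} [Field F] (m : ℕ) :
    ((i : Fin 4) → Fin (dims m i) → F) →ₗ[F] F × F where
  toFun c := top m (P4 c)
  map_add' c c' := by
    rw [← top_add]
    apply congrArg
    funext i
    exact poly_add (c i) (c' i)
  map_smul' r c := by
    rw [RingHom.id_apply, ← top_smul]
    apply congrArg
    funext i
    exact poly_smul r (c i)

theorem masterOdd {F : Type} [Field F] [Fintype F] [DecidableEq F]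
    (S : Finset F) (hcard : 1 ≤ S.card) (Q : (Fin 4 → F[X]) → F[X])
    (hQ : ∀ (c : F[X]) (z : Fin 4 → F[X]), Q (fun i => c * z i) = c ^ 2 * Q z)
    (f : Bool → F → (Fin 4 → F) →ₗ[F] F × F)
    (w : Bool → F → F) (hw : ∀ b, ∀ x ∈ S, w b x ≠ 0)
    (hS : ∀ x ∈ S, ∀ v v' : Fin 4 → F,
      w true x * det2 (f true x v) (f true x v') + w false x * det2 (f false x v) (f false x v')
        = (v 0 * v' 1 - v 1 * v' 0) + (v 2 * v' 3 - v 3 * v' 2))
    (hN : ∀ b, ∀ x ∈ S, ∀ z : Fin 4 → F[X], f b x (fun i => (z i).eval x) = 0 →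
      (Q z).eval x = 0)
    (H : ∀ (m : ℕ) (z : Fin 4 → F[X]), Bd m z →
      (Q z).natDegree ≤ m ∧ ((Q z).coeff m = 0 → top m z = 0)) :
    HasAMEx (2 * S.card + 1) F := by
  have main := master (E := Unit) S (dims S.card) 1 Q hQ f w hw
    (by intro x _; rw [Polynomial.eval_one]; exact one_ne_zero)
    (by
      intro x hx v v'
      rw [Polynomial.eval_one, one_mul]
      exact hS x hx v v')
    hN (fun _ => topMap S.card) (fun _ => -1) (fun _ => neg_ne_zero.mpr one_ne_zero)
    (fun x => ∏ y ∈ S.erase x, (x - y)⁻¹) (fun x _ => nodal_ne_zero S x)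
    (by
      intro c c'
      rw [top_relation S hcard _ _ (P4_bd S.card c) (P4_bd S.card c')]
      rw [Finset.univ_unique, Finset.sum_singleton]
      change det2 (top S.card (P4 c)) (top S.card (P4 c'))
        + -1 * det2 (top S.card (P4 c)) (top S.card (P4 c')) = 0
      ring)
    (by
      intro c hc e he
      have hP : P4 c ≠ 0 := by
        intro h
        apply hc
        funext i
        have := congrFun h i
        exact (poly_eq_zero (c i)).mp this
      have hb := P4_bd S.card c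
      have hQ0 := Q_ne_zero Q H S.card (P4 c) hb hP
      have hle := sum_le_natDegree S (Q (P4 c)) hQ0 e he
      have hdeg := (H S.card (P4 c) hb).1
      have hcu : Fintype.card Unit = 1 := Fintype.card_unit
      rw [hcu]
      by_cases ht : top S.card (P4 c) = 0
      · have hb' := bd_pred hcard hb ht
        have hdeg' := (H (S.card - 1) (P4 c) hb').1
        have hcf : (univ.filter (fun k : Unit => topMap S.card c = 0)).card
            ≤ 1 := by
          refine (Finset.card_le_univ _).trans ?_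
          rw [hcu]
        omega
      · have hcf : (univ.filter (fun k : Unit => topMap S.card c = 0)).card
            = 0 := by
          rw [Finset.card_eq_zero, Finset.filter_eq_empty_iff]
          intro k _ hk
          exact ht hk
        rw [hcf]
        omega)
    (by
      rw [Fin.sum_univ_four]
      have hcu : Fintype.card Unit = 1 := Fintype.card_unit
      rw [hcu]
      change S.card / 2 + 1 + S.card / 2 + (S.card + 1) / 2 + (S.card + 1) / 2 = 2 * S.card + 1
      omega)
  have hcu : Fintype.card Unit = 1 := Fintype.card_unit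
  rw [hcu] at main
  exact main

end Pool.Agent.H14.AM
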