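import Pool.Agent.H14.AM.Graph

/-!
Job AM-Transversal. From a self-dual additive MDS-like code to a graph state.

PROOF. (1) For `T : Fin n → Bool` let `X_T : V →ₗ (Fin n → F)`,
`(X_T z) i = if T i then (f i z).2 else (f i z).1`.  CLAIM: some `X_T` is injective.
Choose `T` with `finrank (ker X_T)` minimal (`Finset.exists_min_image`).  If `z ∈ ker X_T`, `z ≠ 0`:
by `hmin` not all `f i z` vanish, say `f i z ≠ 0`; let `T'` be `T` flipped at `i`
(`Function.update T i (!T i)`).  For `z' ∈ ker X_{T'}` all terms `k ≠ i` of `hiso z z'` vanish (both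
`f k z` and `f k z'` have the same component equal to `0`), so the term `k = i` vanishes, and, as
the `T i`-component of `f i z` is `0` and the other one is not, and the other component of
`f i z'` is `0`, the `T i`-component of `f i z'` is `0` too.  So `ker X_{T'} ≤ ker X_T`, and
`z ∈ ker X_T` but `z ∉ ker X_{T'}`; contradiction with minimality
(`Submodule.finrank_lt_finrank_of_lt`).
(2) By `hdim` the injective `X = X_T` is a linear equivalence `V ≃ (Fin n → F)`
(`LinearEquiv.ofInjectiveOfFinrankEq` or `LinearMap.linearEquivOfInjective`).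
Put `(Y z) i = w i * (f i z).2` if `T i = false` and `-(w i * (f i z).1)` if `T i = true`.
Then `∑ i, ((X z) i * (Y z') i - (Y z) i * (X z') i) = ∑ i, w i * det2 (f i z) (f i z') = 0`.
With `A i j = (Y (X⁻¹ (Pi.single j 1))) i` we get `(Y z) i = ∑ j, A i j * (X z) j`, and the identity
for `z = X⁻¹ e_j`, `z' = X⁻¹ e_k` gives `A j k = A k j`.
(3) `graph_AMEx` applies: let `u` be `0` off `S` and `∑ j, A i j * u j = 0` off `S`, `z = X⁻¹ u`.
Then `f i z = 0` for all `i ∉ S` (as `w i ≠ 0`), so at least `n - n / 2` of the `f i z` vanish, and
`2 * (n - n / 2) ≥ n`, so `hmin` forces `z = 0`, `u = 0`.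
(4) For a general index type `ι` reindex by `Fintype.equivFin ι` (or `Fintype.equivFinOfCardEq`).
-/

namespace Pool.Agent.H14.AM

open Finset

/-- one of the two components of each `f i z` -/
private def tvX {F : Type} [Field F] {n : ℕ} {V : Type} [AddCommGroup V] [Module F V]
    (f : Fin n → V →ₗ[F] F × F) (T : Fin n → Bool) : V →ₗ[F] (Fin n → F) :=
  LinearMap.pi fun i => (bif T i then LinearMap.snd F F F else LinearMap.fst F F F).comp (f i)

private theorem tvX_apply {F : Type} [Field F] {n : ℕ} {V : Type} [AddCommGroup V] [Module F V]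
    (f : Fin n → V →ₗ[F] F × F) (T : Fin n → Bool) (z : V) (i : Fin n) :
    tvX f T z i = bif T i then (f i z).2 else (f i z).1 := by
  unfold tvX
  rw [LinearMap.pi_apply]
  cases T i <;> rfl

/-- the other component, with the weight -/
private def tvY {F : Type} [Field F] {n : ℕ} {V : Type} [AddCommGroup V] [Module F V]
    (f : Fin n → V →ₗ[F] F × F) (w : Fin n → F) (T : Fin n → Bool) : V →ₗ[F] (Fin n → F) :=
  LinearMap.pi fun i => (bif T i then (-(w i)) • LinearMap.fst F F F else
    (w i) • LinearMap.snd F F F).comp (f i)

private theorem tvY_apply {F : Type} [Field F] {n : ℕ} {V : Type} [AddCommGroup V] [Module F V]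
    (f : Fin n → V →ₗ[F] F × F) (w : Fin n → F) (T : Fin n → Bool) (z : V) (i : Fin n) :
    tvY f w T z i = bif T i then -(w i) * (f i z).1 else w i * (f i z).2 := by
  unfold tvY
  rw [LinearMap.pi_apply]
  cases T i <;> simp

private theorem tv_exists {F : Type} [Field F] {n : ℕ}
    {V : Type} [AddCommGroup V] [Module F V] [FiniteDimensional F V] [DecidableEq F]
    (f : Fin n → V →ₗ[F] F × F) (w : Fin n → F) (hw : ∀ i, w i ≠ 0)
    (hiso : ∀ z z' : V, ∑ i, w i * det2 (f i z) (f i z') = 0)
    (hmin : ∀ z : V, z ≠ 0 → 2 * (univ.filter (fun i => f i z = 0)).card < n) :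
    ∃ T : Fin n → Bool, LinearMap.ker (tvX f T) = ⊥ := by
  obtain ⟨T, hT⟩ := Finite.exists_min
    (fun T : Fin n → Bool => Module.finrank F (LinearMap.ker (tvX f T)))
  refine ⟨T, ?_⟩
  by_contra hne
  obtain ⟨z, hz, hz0⟩ := (Submodule.ne_bot_iff _).1 hne
  have hzT : ∀ k, (bif T k then (f k z).2 else (f k z).1) = 0 := by
    intro k
    rw [← tvX_apply, LinearMap.mem_ker.1 hz]
    rfl
  obtain ⟨i, hi⟩ : ∃ i, f i z ≠ 0 := by
    by_contra hcon
    push Not at hcon
    have := hmin z hz0
    rw [Finset.filter_true_of_mem (fun i _ => hcon i), Finset.card_univ, Fintype.card_fin] at this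
    omega
  set T' := Function.update T i (!T i) with hT'
  have hle : LinearMap.ker (tvX f T') ≤ LinearMap.ker (tvX f T) := by
    intro z' hz'
    have hz'T : ∀ k, (bif T' k then (f k z').2 else (f k z').1) = 0 := by
      intro k
      rw [← tvX_apply, LinearMap.mem_ker.1 hz']
      rfl
    have hsum := hiso z z'
    rw [Finset.sum_eq_single i] at hsum
    · have hdet : det2 (f i z) (f i z') = 0 := by
        rcases mul_eq_zero.1 hsum with h | h
        · exact absurd h (hw i)
        · exact h
      rw [LinearMap.mem_ker]
      funext k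
      rw [tvX_apply]
      by_cases hk : k = i
      · subst hk
        have h1 := hzT k
        have h2 := hz'T k
        rw [hT', Function.update_self] at h2
        unfold det2 at hdet
        cases hTk : T k with
        | false =>
          rw [hTk] at h1 h2
          simp only [cond_false, Bool.not_false, cond_true] at h1 h2
          rw [h1, h2] at hdet
          have h3 : (f k z).2 ≠ 0 := fun h => hi (Prod.ext h1 h)
          simp only [cond_false, Pi.zero_apply]
          have h4 : (f k z).2 * (f k z').1 = 0 := by linear_combination -hdet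
          exact (mul_eq_zero.1 h4).resolve_left h3
        | true =>
          rw [hTk] at h1 h2
          simp only [cond_true, Bool.not_true, cond_false] at h1 h2
          rw [h1, h2] at hdet
          have h3 : (f k z).1 ≠ 0 := fun h => hi (Prod.ext h h1)
          simp only [cond_true, Pi.zero_apply]
          have h4 : (f k z).1 * (f k z').2 = 0 := by linear_combination hdet
          exact (mul_eq_zero.1 h4).resolve_left h3
      · have h2 := hz'T k
        rw [hT', Function.update_of_ne hk] at h2
        exact h2
    · intro k _ hk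
      have h1 := hzT k
      have h2 := hz'T k
      rw [hT', Function.update_of_ne hk] at h2
      unfold det2
      cases hTk : T k with
      | false =>
        rw [hTk] at h1 h2
        simp only [cond_false] at h1 h2
        rw [h1, h2]
        ring
      | true =>
        rw [hTk] at h1 h2
        simp only [cond_true] at h1 h2
        rw [h1, h2]
        ring
    · intro h
      exact absurd (Finset.mem_univ i) h
  have hlt : LinearMap.ker (tvX f T') < LinearMap.ker (tvX f T) := by
    refine lt_of_le_of_ne hle ?_
    intro heq
    rw [← heq] at hz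
    have h1 := hzT i
    have h2 : tvX f T' z i = 0 := by rw [LinearMap.mem_ker.1 hz]; rfl
    rw [tvX_apply, hT', Function.update_self] at h2
    apply hi
    cases hTi : T i with
    | false =>
      rw [hTi] at h1 h2
      exact Prod.ext h1 h2
    | true =>
      rw [hTi] at h1 h2
      exact Prod.ext h2 h1
  have := Submodule.finrank_lt_finrank_of_lt hlt
  exact absurd (hT T') (not_le.2 this)

theorem hasAMEx_of_code_fin {F : Type} [Field F] [Fintype F] [DecidableEq F] {n : ℕ}
    {V : Type} [AddCommGroup V] [Module F V] [FiniteDimensional F V]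
    (f : Fin n → V →ₗ[F] F × F) (w : Fin n → F) (hw : ∀ i, w i ≠ 0)
    (hdim : Module.finrank F V = n)
    (hiso : ∀ z z' : V, ∑ i, w i * det2 (f i z) (f i z') = 0)
    (hmin : ∀ z : V, z ≠ 0 → 2 * (univ.filter (fun i => f i z = 0)).card < n) :
    HasAMEx n F := by
  classical
  obtain ⟨T, hT⟩ := tv_exists f w hw hiso hmin
  have hinj : Function.Injective (tvX f T) := LinearMap.ker_eq_bot.1 hT
  have hfr : Module.finrank F V = Module.finrank F (Fin n → F) := by
    rw [hdim, Module.finrank_fintype_fun_eq_card, Fintype.card_fin]
  let e : V ≃ₗ[F] (Fin n → F) := LinearMap.linearEquivOfInjective (tvX f T) hinj hfr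
  have he : ∀ z, e z = tvX f T z := fun z => rfl
  have hes : ∀ u, tvX f T (e.symm u) = u := fun u => by rw [← he, e.apply_symm_apply]
  let B : (Fin n → F) →ₗ[F] (Fin n → F) := (tvY f w T).comp e.symm.toLinearMap
  have hB : ∀ u, B u = tvY f w T (e.symm u) := fun u => rfl
  let A : Fin n → Fin n → F := fun i j => LinearMap.toMatrix' B i j
  have hA1 : ∀ u i, B u i = ∑ j, A i j * u j := by
    intro u i
    have := congrFun (LinearMap.toMatrix'_mulVec B u) i
    rw [← this]
    rfl
  have hA2 : ∀ i j, A i j = B (Pi.single j 1) i := by
    intro i j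
    rw [hA1]
    simp [Pi.single_apply]
  have hXY : ∀ z z' : V, ∑ i, (tvX f T z i * tvY f w T z' i - tvY f w T z i * tvX f T z' i) = 0 := by
    intro z z'
    rw [← hiso z z']
    refine Finset.sum_congr rfl fun i _ => ?_
    rw [tvX_apply, tvX_apply, tvY_apply, tvY_apply]
    unfold det2
    cases T i with
    | false =>
      simp only [cond_false]
      ring
    | true =>
      simp only [cond_true]
      ring
  refine graph_AMEx A ?_ ?_
  · intro j k
    have h := hXY (e.symm (Pi.single j 1)) (e.symm (Pi.single k 1))
    rw [hes, hes, ← hB, ← hB] at h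
    simp only [← hA2] at h
    rw [Finset.sum_sub_distrib] at h
    simp only [Pi.single_apply, ite_mul, one_mul, zero_mul, mul_ite, mul_one, mul_zero,
      Finset.sum_ite_eq', Finset.mem_univ, if_true] at h
    linear_combination h
  · intro S hS u hu hAu
    have hz : e.symm u = 0 := by
      by_contra hne
      have h1 := hmin _ hne
      have h2 : Sᶜ ⊆ univ.filter (fun i => f i (e.symm u) = 0) := by
        intro i hi
        rw [Finset.mem_compl] at hi
        rw [Finset.mem_filter]
        refine ⟨Finset.mem_univ _, ?_⟩
        have h3 : tvX f T (e.symm u) i = 0 := by rw [hes]; exact hu i hi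
        have h4 : tvY f w T (e.symm u) i = 0 := by
          rw [← hB, hA1]
          exact hAu i hi
        rw [tvX_apply] at h3
        rw [tvY_apply] at h4
        cases hTi : T i with
        | false =>
          rw [hTi] at h3 h4
          simp only [cond_false] at h3 h4
          exact Prod.ext h3 ((mul_eq_zero.1 h4).resolve_left (hw i))
        | true =>
          rw [hTi] at h3 h4
          simp only [cond_true] at h3 h4
          exact Prod.ext ((mul_eq_zero.1 h4).resolve_left (neg_ne_zero.2 (hw i))) h3
      have h5 := Finset.card_le_card h2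
      rw [Finset.card_compl, Fintype.card_fin] at h5
      omega
    have := congrArg e hz
    rw [e.apply_symm_apply, map_zero] at this
    exact this

theorem hasAMEx_of_code {F : Type} [Field F] [Fintype F] [DecidableEq F]
    {ι : Type} [Fintype ι] [DecidableEq ι]
    {V : Type} [AddCommGroup V] [Module F V] [FiniteDimensional F V]
    (f : ι → V →ₗ[F] F × F) (w : ι → F) (hw : ∀ i, w i ≠ 0)
    (hdim : Module.finrank F V = Fintype.card ι)
    (hiso : ∀ z z' : V, ∑ i, w i * det2 (f i z) (f i z') = 0)
    (hmin : ∀ z : V, z ≠ 0 →
      2 * (univ.filter (fun i => f i z = 0)).card < Fintype.card ι) :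
    HasAMEx (Fintype.card ι) F := by
  let e := Fintype.equivFin ι
  refine hasAMEx_of_code_fin (fun i => f (e.symm i)) (fun i => w (e.symm i))
    (fun i => hw _) hdim ?_ ?_
  · intro z z'
    rw [← hiso z z']
    exact Equiv.sum_comp e.symm (fun i => w i * det2 (f i z) (f i z'))
  · intro z hz
    have h1 := hmin z hz
    have h2 : (univ.filter (fun i => f (e.symm i) z = 0)).card =
        (univ.filter (fun i => f i z = 0)).card := by
      refine Finset.card_equiv e.symm ?_
      intro i
      simp
    rw [h2]
    exact h1

end Pool.Agent.H14.AM
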